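import Mathlib

/-!
# Linear arithmetic for one colour class

`a0, a1, a2` and `o0, o1, o2` are the ends of the outermost arcs that cross the three
boundaries, `C0, C1, C2` and `w0, w1, w2` the numbers of long arcs, `q` bounds their sum.
-/

namespace Pool.Agent.Helper95.CFL

/-- capacity -/
theorem ari_cap {h L q a0 a1 a2 o0 o1 o2 C0 C1 C2 w0 w1 w2 : ℕ} (hL : L = 2 * h) (hh : 2 ≤ h)
    (ha0 : a0 < L) (ha1 : a1 < L) (ha2 : a2 < L) (ho0 : o0 < L) (ho1 : o1 < L) (ho2 : o2 < L)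
    (h0 : o2 ≤ a0) (h1 : o0 ≤ a1) (h2 : o1 ≤ a2)
    (hC0 : C0 = 0 ∨ C0 + h + a0 ≤ L + o0 + 1) (hC1 : C1 = 0 ∨ C1 + h + a1 ≤ L + o1 + 1)
    (hC2 : C2 = 0 ∨ C2 + h + a2 ≤ L + o2 + 1)
    (hq : q ≤ (C0 + w0) + (C1 + w1) + (C2 + w2))
    (hw0 : w0 = 0 ∨ w0 + h + o2 ≤ a0 + 1) (hw1 : w1 = 0 ∨ w1 + h + o0 ≤ a1 + 1)
    (hw2 : w2 = 0 ∨ w2 + h + o1 ≤ a2 + 1) : q ≤ 4 * h + 1 := by
  rcases hC0 with hC0 | hC0 <;> rcases hC1 with hC1 | hC1 <;> rcases hC2 with hC2 | hC2 <;>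
    rcases hw0 with hw0 | hw0 <;> rcases hw1 with hw1 | hw1 <;> rcases hw2 with hw2 | hw2 <;> omega

/-- labels -/
theorem ari_lab {h L q a0 a1 a2 o0 o1 o2 C0 C1 C2 w0 w1 w2 R0 R1 R2 : ℕ} (hL : L = 2 * h)
    (hh : 2 ≤ h)
    (ha0 : a0 < L) (ha1 : a1 < L) (ha2 : a2 < L) (ho0 : o0 < L) (ho1 : o1 < L) (ho2 : o2 < L)
    (h0 : o2 ≤ a0) (h1 : o0 ≤ a1) (h2 : o1 ≤ a2)
    (hC0 : C0 = 0 ∨ C0 + h + a0 ≤ L + o0 + 1) (hC1 : C1 = 0 ∨ C1 + h + a1 ≤ L + o1 + 1)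
    (hC2 : C2 = 0 ∨ C2 + h + a2 ≤ L + o2 + 1)
    (hq : q ≤ (C0 + w0) + (C1 + w1) + (C2 + w2))
    (hw0 : (w0 = 0 ∧ R0 + o2 ≤ a0) ∨ w0 + h + R0 + o2 ≤ a0 + 1)
    (hw1 : (w1 = 0 ∧ R1 + o0 ≤ a1) ∨ w1 + h + R1 + o0 ≤ a1 + 1)
    (hw2 : (w2 = 0 ∧ R2 + o1 ≤ a2) ∨ w2 + h + R2 + o1 ≤ a2 + 1) :
    min R0 h + min R1 h + min R2 h + q ≤ 4 * h + 2 := by
  have m0 : min R0 h ≤ R0 := min_le_left _ _
  have m1 : min R1 h ≤ R1 := min_le_left _ _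
  have m2 : min R2 h ≤ R2 := min_le_left _ _
  have n0 : min R0 h ≤ h := min_le_right _ _
  have n1 : min R1 h ≤ h := min_le_right _ _
  have n2 : min R2 h ≤ h := min_le_right _ _
  generalize min R0 h = r0 at *
  generalize min R1 h = r1 at *
  generalize min R2 h = r2 at *
  rcases hC0 with hC0 | hC0 <;> rcases hC1 with hC1 | hC1 <;> rcases hC2 with hC2 | hC2 <;>
    rcases hw0 with hw0 | hw0 <;> rcases hw1 with hw1 | hw1 <;> rcases hw2 with hw2 | hw2 <;> omega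

/-- a cheap class with an interior row in group `0` has no arc across the opposite boundary -/
theorem ari_opp {h L q z a0 a1 a2 o0 o1 o2 C0 C1 C2 w0 w1 w2 s : ℕ} (hL : L = 2 * h)
    (hz : z + 2 ≤ h)
    (ha0 : a0 < L) (ha1 : a1 < L) (ha2 : a2 < L) (ho0 : o0 < L) (ho1 : o1 < L) (ho2 : o2 < L)
    (h0 : o2 ≤ a0) (h1 : o0 ≤ a1) (h2 : o1 ≤ a2)
    (hC0 : C0 = 0 ∨ C0 + h + a0 ≤ L + o0 + 1) (hC1 : C1 + h + a1 ≤ L + o1 + 1)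
    (hC2 : C2 = 0 ∨ C2 + h + a2 ≤ L + o2 + 1)
    (hq : q ≤ (C0 + w0) + (C1 + w1) + (C2 + w2))
    (hs1 : o2 ≤ s) (hs2 : s ≤ a0) (hs3 : z ≤ s) (hs4 : s + z < L)
    (hw0 : w0 = 0 ∨ w0 + h + o2 ≤ s + 1 ∨ w0 + h + s ≤ a0 + 1)
    (hw1 : w1 = 0 ∨ w1 + h + o0 ≤ a1 + 1) (hw2 : w2 = 0 ∨ w2 + h + o1 ≤ a2 + 1) :
    q + z ≤ 4 * h + 1 := by
  rcases hC0 with hC0 | hC0 <;> rcases hC2 with hC2 | hC2 <;>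
    rcases hw0 with hw0 | hw0 | hw0 <;> rcases hw1 with hw1 | hw1 <;>
    rcases hw2 with hw2 | hw2 <;> omega

/-- a class with interior rows in the groups `0` and `1` is not cheap -/
theorem ari_two {h L q z a0 a1 a2 o0 o1 o2 C0 C1 C2 w0 w1 w2 s t : ℕ} (hL : L = 2 * h)
    (hz : z + 2 ≤ h)
    (ha0 : a0 < L) (ha1 : a1 < L) (ha2 : a2 < L) (ho0 : o0 < L) (ho1 : o1 < L) (ho2 : o2 < L)
    (h0 : o2 ≤ a0) (h1 : o0 ≤ a1) (h2 : o1 ≤ a2)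
    (hC0 : C0 = 0 ∨ C0 + h + a0 ≤ L + o0 + 1) (hC1 : C1 = 0 ∨ C1 + h + a1 ≤ L + o1 + 1)
    (hC2 : C2 = 0 ∨ C2 + h + a2 ≤ L + o2 + 1)
    (hq : q ≤ (C0 + w0) + (C1 + w1) + (C2 + w2))
    (hs1 : o2 ≤ s) (hs2 : s ≤ a0) (hs3 : z ≤ s) (hs4 : s + z < L)
    (ht1 : o0 ≤ t) (ht2 : t ≤ a1) (ht3 : z ≤ t) (ht4 : t + z < L)
    (hw0 : w0 = 0 ∨ w0 + h + o2 ≤ s + 1 ∨ w0 + h + s ≤ a0 + 1)
    (hw1 : w1 = 0 ∨ w1 + h + o0 ≤ t + 1 ∨ w1 + h + t ≤ a1 + 1)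
    (hw2 : w2 = 0 ∨ w2 + h + o1 ≤ a2 + 1) :
    q + z ≤ 4 * h + 1 := by
  rcases hC0 with hC0 | hC0 <;> rcases hC1 with hC1 | hC1 <;> rcases hC2 with hC2 | hC2 <;>
    rcases hw0 with hw0 | hw0 | hw0 <;> rcases hw1 with hw1 | hw1 | hw1 <;>
    rcases hw2 with hw2 | hw2 <;> omega

/-- the span of the interior rows of a cheap class -/
theorem ari_span {h L q z a0 a1 a2 o0 o1 o2 C0 C1 C2 w0 w1 w2 s t : ℕ} (hL : L = 2 * h)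
    (hz : z + 2 ≤ h)
    (ha0 : a0 < L) (ha1 : a1 < L) (ha2 : a2 < L) (ho0 : o0 < L) (ho1 : o1 < L) (ho2 : o2 < L)
    (h0 : o2 ≤ a0) (h1 : o0 ≤ a1) (h2 : o1 ≤ a2)
    (hC0 : C0 = 0 ∨ C0 + h + a0 ≤ L + o0 + 1) (hC1 : C1 = 0 ∨ C1 + h + a1 ≤ L + o1 + 1)
    (hC2 : C2 = 0 ∨ C2 + h + a2 ≤ L + o2 + 1)
    (hq : q ≤ (C0 + w0) + (C1 + w1) + (C2 + w2))
    (hst : s ≤ t) (hs1 : o2 ≤ s) (hs2 : t ≤ a0) (hs3 : z ≤ s) (hs4 : t + z < L)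
    (hw0 : w0 = 0 ∨ w0 + h + o2 ≤ s + 1 ∨ w0 + h + s ≤ t + 1 ∨ w0 + h + t ≤ a0 + 1)
    (hw1 : w1 = 0 ∨ w1 + h + o0 ≤ a1 + 1)
    (hw2 : w2 = 0 ∨ w2 + h + o1 ≤ a2 + 1) (hcheap : 4 * h + 1 < q + z) :
    (t - s) + q ≤ 4 * h + 1 := by
  rcases hC0 with hC0 | hC0 <;> rcases hC1 with hC1 | hC1 <;> rcases hC2 with hC2 | hC2 <;>
    rcases hw0 with hw0 | hw0 | hw0 | hw0 <;> rcases hw1 with hw1 | hw1 <;>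
    rcases hw2 with hw2 | hw2 <;> omega

end Pool.Agent.Helper95.CFL
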