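import Pool.Agent.Helper95.CFL.Lam

/-!
# One colour class

The vertices are three groups of `L` points and `M` further points. `A a x y` (for
`x < y < 2 L`) is the colour of the chord between the positions `x` and `y` of the groups
`a, a + 1` (position `x < L` is point `x` of group `a`, position `L + x` is point `x` of group
`a + 1`). `E a k c` is the colour of the edge between point `k` of group `a` and the further point
`c`.
-/

namespace Pool.Agent.Helper95.CFL

open Finset

/-- An abstract crossing-free colouring. -/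
structure Col (κ : Type*) (L M : ℕ) where
  A : Fin 3 → ℕ → ℕ → κ
  E : Fin 3 → ℕ → ℕ → κ
  lam : ∀ a x x' y y', x < x' → x' < y → y < y' → y' < 2 * L → A a x y ≠ A a x' y'
  shift : ∀ a x y, x < y → y < L → A a (L + x) (L + y) = A (a + 1) x y
  nxt : ∀ a i j i' j', i < L → j < L → j' < L → i' < j → A a i (L + j) ≠ A (a + 1) i' (L + j')
  rowA : ∀ a x y k c, x < k → k < y → y < 2 * L → k < L → c < M → A a x y ≠ E a k c
  rowB : ∀ a x y k c, x < L + k → L + k < y → y < 2 * L → c < M → A a x y ≠ E (a + 1) k c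
  chain : ∀ a k k' c c', k < k' → k' < L → c' < c → c < M → E a k c ≠ E a k' c'

variable {κ : Type*} [DecidableEq κ] {L M : ℕ}

/-- the chords of colour `G` and length at least `l` in the frame `a` -/
def fam (S : Col κ L M) (l : ℕ) (G : κ) (a : Fin 3) : Finset (ℕ × ℕ) :=
  (range (2 * L) ×ˢ range (2 * L)).filter fun p => p.1 + l ≤ p.2 ∧ S.A a p.1 p.2 = G

/-- number of the chords of colour `G` and length at least `l` that start in group `a` -/
def qq (S : Col κ L M) (l : ℕ) (G : κ) (a : Fin 3) : ℕ :=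
  ((fam S l G a).filter fun p => p.1 < L).card

/-- the rows between `u` and `v` of group `a` that are joined to a further point -/
def rws (S : Col κ L M) (G : κ) (a : Fin 3) (u v : ℕ) : Finset ℕ :=
  (Ico u v).filter fun k => ∃ c ∈ range M, S.E a k c = G

open Classical in
/-- the span of a finite set of naturals -/
noncomputable def sp (T : Finset ℕ) : ℕ := if h : T.Nonempty then T.max' h - T.min' h else 0

theorem sp_cases (T : Finset ℕ) (d : ℕ) :
    ∃ a b, a ≤ b ∧ sp T = b - a ∧ ((a ∈ T ∧ b ∈ T) ∨ (T = ∅ ∧ a = d ∧ b = d)) := by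
  by_cases h : T.Nonempty
  · refine ⟨T.min' h, T.max' h, T.min'_le _ (T.max'_mem h), ?_, Or.inl ⟨T.min'_mem h,
      T.max'_mem h⟩⟩
    unfold sp
    rw [dif_pos h]
  · refine ⟨d, d, le_rfl, ?_, Or.inr ⟨not_nonempty_iff_eq_empty.1 h, rfl, rfl⟩⟩
    unfold sp
    rw [dif_neg h]
    omega

theorem sp_bound {T : Finset ℕ} {k : ℕ} (hk : k ∈ T) :
    ∃ a b, a ∈ T ∧ b ∈ T ∧ a ≤ k ∧ k ≤ b ∧ sp T = b - a := by
  have h : T.Nonempty := ⟨k, hk⟩
  refine ⟨T.min' h, T.max' h, T.min'_mem h, T.max'_mem h, T.min'_le _ hk, T.le_max' _ hk, ?_⟩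
  unfold sp
  rw [dif_pos h]

theorem sp_range {T : Finset ℕ} (h : T.Nonempty) :
    ∃ a b, a ∈ T ∧ b ∈ T ∧ a ≤ b ∧ sp T = b - a ∧ ∀ i ∈ T, a ≤ i ∧ i ≤ b := by
  refine ⟨T.min' h, T.max' h, T.min'_mem h, T.max'_mem h, T.min'_le _ (T.max'_mem h), ?_,
    fun i hi => ⟨T.min'_le _ hi, T.le_max' _ hi⟩⟩
  unfold sp
  rw [dif_pos h]

theorem mem_fam {S : Col κ L M} {l : ℕ} {G : κ} {a : Fin 3} {p : ℕ × ℕ} :
    p ∈ fam S l G a ↔ p.1 < 2 * L ∧ p.2 < 2 * L ∧ p.1 + l ≤ p.2 ∧ S.A a p.1 p.2 = G := by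
  unfold fam
  rw [mem_filter, mem_product, mem_range, mem_range]
  tauto

theorem mem_rws {S : Col κ L M} {G : κ} {a : Fin 3} {u v k : ℕ} :
    k ∈ rws S G a u v ↔ u ≤ k ∧ k < v ∧ ∃ c, c < M ∧ S.E a k c = G := by
  unfold rws
  rw [mem_filter, mem_Ico]
  simp only [mem_range]
  tauto

theorem fam_lam (S : Col κ L M) (l : ℕ) (G : κ) (a : Fin 3) : Lam l (fam S l G a) := by
  refine ⟨fun p hp => (mem_fam.1 hp).2.2.1, ?_⟩
  intro p hp q hq h
  rw [mem_fam] at hp hq
  exact S.lam a p.1 q.1 p.2 q.2 h.1 h.2.1 h.2.2 hq.2.1 (hp.2.2.2.trans hq.2.2.2.symm)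

private theorem outer1 (S : Col κ L M) (l : ℕ) (hL : 1 ≤ L) (G : κ) (a : Fin 3) :
    ∃ al om : ℕ, al < L ∧ om < L ∧
      (∀ p ∈ fam S l G a, p.1 < L → L ≤ p.2 → al ≤ p.1 ∧ p.2 ≤ L + om) ∧
      (al + 1 = L ∨ ∃ y, (al, y) ∈ fam S l G a ∧ L ≤ y) ∧
      (om = 0 ∨ ∃ x, (x, L + om) ∈ fam S l G a ∧ x < L) := by
  by_cases hne : ((fam S l G a).filter fun p => p.1 < L ∧ L ≤ p.2).Nonempty
  · obtain ⟨p, hp, hpmin⟩ := exists_min_image _ (fun p : ℕ × ℕ => p.1) hne
    obtain ⟨q, hq, hqmax⟩ := exists_max_image _ (fun p : ℕ × ℕ => p.2) hne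
    rw [mem_filter] at hp hq
    have hp' := mem_fam.1 hp.1
    have hq' := mem_fam.1 hq.1
    refine ⟨p.1, q.2 - L, hp.2.1, by omega, ?_, Or.inr ⟨p.2, hp.1, hp.2.2⟩, Or.inr ⟨q.1, ?_,
      hq.2.1⟩⟩
    · intro r hr h1 h2
      have hr' : r ∈ (fam S l G a).filter fun p => p.1 < L ∧ L ≤ p.2 := by
        rw [mem_filter]; exact ⟨hr, h1, h2⟩
      have h3 : p.1 ≤ r.1 := hpmin r hr'
      have h4 : r.2 ≤ q.2 := hqmax r hr'
      exact ⟨h3, by omega⟩
    · have : L + (q.2 - L) = q.2 := by omega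
      rw [this]
      exact hq.1
  · refine ⟨L - 1, 0, by omega, by omega, ?_, Or.inl (by omega), Or.inl rfl⟩
    intro p hp h1 h2
    exact absurd ⟨p, by rw [mem_filter]; exact ⟨hp, h1, h2⟩⟩ hne

theorem fin3_three (a : Fin 3) : a + 2 + 1 = a := by
  revert a; decide

private theorem fin3_sum (f : Fin 3 → ℕ) : ∑ a, f (a + 2) = ∑ a, f a := by
  rw [Fin.sum_univ_three, Fin.sum_univ_three]
  have h0 : (0 : Fin 3) + 2 = 2 := rfl
  have h1 : (1 : Fin 3) + 2 = 0 := rfl
  have h2 : (2 : Fin 3) + 2 = 1 := rfl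
  rw [h0, h1, h2]
  ring

/-- the facts about one colour class -/
theorem class_facts (S : Col κ L M) {h z : ℕ} (hL : L = 2 * h) (hh : 2 ≤ h) (hz : z ≤ h) (G : κ) :
    ∃ al om C w : Fin 3 → ℕ,
      (∀ a, al a < L) ∧ (∀ a, om a < L) ∧ (∀ a, om (a + 2) ≤ al a) ∧
      (∀ a, C a = 0 ∨ C a + h + al a ≤ L + om a + 1) ∧
      (∑ a, qq S h G a ≤ ∑ a, (C a + w a)) ∧
      (∀ a k c, k < L → c < M → S.E a k c = G → om (a + 2) ≤ k ∧ k ≤ al a) ∧
      (∀ a k k' c c', k ≤ k' → k' < L → c < M → c' < M → S.E a k c = G → S.E a k' c' = G →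
        w a = 0 ∨ w a + h + om (a + 2) ≤ k + 1 ∨ w a + h + k ≤ k' + 1 ∨
          w a + h + k' ≤ al a + 1) ∧
      (∀ a, (w a = 0 ∧ sp (rws S G a z h) + sp (rws S G a h (L - z)) + om (a + 2) ≤ al a) ∨
        w a + h + sp (rws S G a z h) + sp (rws S G a h (L - z)) + om (a + 2) ≤ al a + 1) ∧
      (∀ a t, t < L → S.A a t (L + t) = G → 1 ≤ C a) := by
  have hL1 : 1 ≤ L := by omega
  choose al om hal hom hin hal' hom' using fun a => outer1 S h hL1 G a
  have hlam : ∀ a, Lam h (fam S h G a) := fun a => fam_lam S h G a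
  have horder : ∀ a, om (a + 2) ≤ al a := by
    intro a
    rcases hom' (a + 2) with h1 | ⟨x, hx1, hx2⟩
    · omega
    rcases hal' a with h2 | ⟨y, hy1, hy2⟩
    · have := hom (a + 2); omega
    by_contra hcon
    have hx := mem_fam.1 hx1
    have hy := mem_fam.1 hy1
    have h3 := S.nxt (a + 2) x (om (a + 2)) (al a) (y - L) hx2 (hom _) (by
      have := hy.2.1
      simp only at this
      omega) (by omega)
    rw [fin3_three] at h3
    have e : L + (y - L) = y := by omega
    rw [e] at h3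
    exact h3 (hx.2.2.2.trans hy.2.2.2.symm)
  have hrow : ∀ a k c, k < L → c < M → S.E a k c = G → om (a + 2) ≤ k ∧ k ≤ al a := by
    intro a k c hk hc hG
    constructor
    · rcases hom' (a + 2) with h1 | ⟨x, hx1, hx2⟩
      · omega
      · by_contra hcon
        have hx := mem_fam.1 hx1
        have h3 := S.rowB (a + 2) x (L + om (a + 2)) k c (by omega) (by omega) hx.2.1 hc
        rw [fin3_three] at h3
        exact h3 (hx.2.2.2.trans hG.symm)
    · rcases hal' a with h2 | ⟨y, hy1, hy2⟩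
      · omega
      · by_contra hcon
        have hy := mem_fam.1 hy1
        exact S.rowA a (al a) y k c (by omega) (by omega) hy.2.1 hk hc (hy.2.2.2.trans hG.symm)
  -- rows are cut points
  have hcut : ∀ a k c, k < L → c < M → S.E a k c = G → ∀ u v : ℕ, ∀ p ∈ fam S h G a, u ≤ p.1 →
      p.2 ≤ v → p.2 ≤ k ∨ k ≤ p.1 := by
    intro a k c hk hc hG u v p hp _ _
    by_contra hcon
    have hp' := mem_fam.1 hp
    exact S.rowA a p.1 p.2 k c (by omega) (by omega) hp'.2.1 hk hc (hp'.2.2.2.trans hG.symm)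
  refine ⟨al, om, fun a => nn (fam S h G a) (al a) (L + om a),
    fun a => nn (fam S h G a) (om (a + 2)) (al a), hal, hom, horder, ?_, ?_, hrow, ?_, ?_, ?_⟩
  · intro a
    have h1 := nn_le (hlam a) hh (al a) (L + om a)
    have h2 := hal a
    show nn (fam S h G a) (al a) (L + om a) = 0 ∨
      nn (fam S h G a) (al a) (L + om a) + h + al a ≤ L + om a + 1
    omega
  · -- the count
    have hq : ∀ a, qq S h G a ≤
        ((fam S h G a).filter fun p => (al a ≤ p.1 ∧ p.2 ≤ L + om a) ∧ p.1 < L).card +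
        nn (fam S h G a) (om (a + 2)) (al a) +
        ((fam S h G (a + 2)).filter fun p =>
          (al (a + 2) ≤ p.1 ∧ p.2 ≤ L + om (a + 2)) ∧ ¬ p.1 < L).card := by
      intro a
      have hsub : (fam S h G a).filter (fun p => p.1 < L) ⊆
          ((fam S h G a).filter fun p => (al a ≤ p.1 ∧ p.2 ≤ L + om a) ∧ p.1 < L) ∪
          ((fam S h G a).filter fun p => om (a + 2) ≤ p.1 ∧ p.2 ≤ al a) ∪
          ((fam S h G a).filter fun p => p.1 < L ∧ p.2 ≤ om (a + 2)) := by
        intro p hp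
        rw [mem_filter] at hp
        rw [mem_union, mem_union, mem_filter, mem_filter, mem_filter]
        have hp' := mem_fam.1 hp.1
        rcases Nat.lt_or_ge p.2 L with h1 | h1
        · -- inside the group
          have h2 : p.2 ≤ al a ∨ al a ≤ p.1 := by
            rcases hal' a with h2 | ⟨y, hy1, hy2⟩
            · omega
            · by_contra hcon
              have hy := mem_fam.1 hy1
              exact (hlam a).lam p hp.1 (al a, y) hy1
                ⟨by show p.1 < al a; omega, by show al a < p.2; omega, by show p.2 < y; omega⟩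
          have h3 : p.2 ≤ om (a + 2) ∨ om (a + 2) ≤ p.1 := by
            rcases hom' (a + 2) with h3 | ⟨x, hx1, hx2⟩
            · omega
            · by_contra hcon
              have hsh := S.shift (a + 2) p.1 p.2 (by omega) h1
              rw [fin3_three] at hsh
              have hmem : (L + p.1, L + p.2) ∈ fam S h G (a + 2) := by
                rw [mem_fam]
                refine ⟨by show L + p.1 < 2 * L; omega, by show L + p.2 < 2 * L; omega,
                  by show L + p.1 + h ≤ L + p.2; omega, ?_⟩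
                show S.A (a + 2) (L + p.1) (L + p.2) = G
                rw [hsh]
                exact hp'.2.2.2
              exact (hlam (a + 2)).lam (x, L + om (a + 2)) hx1 (L + p.1, L + p.2) hmem
                ⟨by show x < L + p.1; omega, by show L + p.1 < L + om (a + 2); omega,
                  by show L + om (a + 2) < L + p.2; omega⟩
          rcases h2 with h2 | h2
          · rcases h3 with h3 | h3
            · exact Or.inr ⟨hp.1, hp.2, h3⟩
            · exact Or.inl (Or.inr ⟨hp.1, h3, h2⟩)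
          · exact Or.inl (Or.inl ⟨hp.1, ⟨h2, by omega⟩, hp.2⟩)
        · have := hin a p hp.1 hp.2 h1
          exact Or.inl (Or.inl ⟨hp.1, this, hp.2⟩)
      have hshift : ((fam S h G a).filter fun p => p.1 < L ∧ p.2 ≤ om (a + 2)).card ≤
          ((fam S h G (a + 2)).filter fun p =>
            (al (a + 2) ≤ p.1 ∧ p.2 ≤ L + om (a + 2)) ∧ ¬ p.1 < L).card := by
        refine card_le_card_of_injOn (fun p => (L + p.1, L + p.2)) ?_ ?_
        · intro p hp
          rw [mem_coe, mem_filter] at hp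
          rw [mem_coe, mem_filter, mem_fam]
          have hp' := mem_fam.1 hp.1
          have ho := hom (a + 2)
          have ha := hal (a + 2)
          have hsh := S.shift (a + 2) p.1 p.2 (by omega) (by omega)
          rw [fin3_three] at hsh
          refine ⟨⟨by show L + p.1 < 2 * L; omega, by show L + p.2 < 2 * L; omega,
            by show L + p.1 + h ≤ L + p.2; omega, ?_⟩, ⟨by show al (a + 2) ≤ L + p.1; omega,
            by show L + p.2 ≤ L + om (a + 2); omega⟩, by show ¬ L + p.1 < L; omega⟩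
          show S.A (a + 2) (L + p.1) (L + p.2) = G
          rw [hsh]
          exact hp'.2.2.2
        · intro p _ q _ hpq
          have h1 : L + p.1 = L + q.1 := congrArg Prod.fst hpq
          have h2 : L + p.2 = L + q.2 := congrArg Prod.snd hpq
          exact Prod.ext (by omega) (by omega)
      unfold qq
      refine (card_le_card hsub).trans ((card_union_le _ _).trans ?_)
      have h1 := card_union_le
        ((fam S h G a).filter fun p => (al a ≤ p.1 ∧ p.2 ≤ L + om a) ∧ p.1 < L)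
        ((fam S h G a).filter fun p => om (a + 2) ≤ p.1 ∧ p.2 ≤ al a)
      unfold nn
      omega
    have hsplit : ∀ a, ((fam S h G a).filter fun p => (al a ≤ p.1 ∧ p.2 ≤ L + om a) ∧ p.1 < L).card
        + ((fam S h G a).filter fun p => (al a ≤ p.1 ∧ p.2 ≤ L + om a) ∧ ¬ p.1 < L).card =
        nn (fam S h G a) (al a) (L + om a) := by
      intro a
      unfold nn
      rw [← card_filter_add_card_filter_not (s := (fam S h G a).filter fun p =>
        al a ≤ p.1 ∧ p.2 ≤ L + om a) (fun p => p.1 < L), filter_filter, filter_filter]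
    calc ∑ a, qq S h G a ≤ ∑ a, (((fam S h G a).filter fun p =>
          (al a ≤ p.1 ∧ p.2 ≤ L + om a) ∧ p.1 < L).card +
        nn (fam S h G a) (om (a + 2)) (al a) +
        ((fam S h G (a + 2)).filter fun p =>
          (al (a + 2) ≤ p.1 ∧ p.2 ≤ L + om (a + 2)) ∧ ¬ p.1 < L).card) :=
          sum_le_sum fun a _ => hq a
      _ = ∑ a, (((fam S h G a).filter fun p =>
          (al a ≤ p.1 ∧ p.2 ≤ L + om a) ∧ p.1 < L).card +
        nn (fam S h G a) (om (a + 2)) (al a)) +
        ∑ a, ((fam S h G a).filter fun p =>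
          (al a ≤ p.1 ∧ p.2 ≤ L + om a) ∧ ¬ p.1 < L).card := by
          rw [sum_add_distrib]
          congr 1
          exact fin3_sum fun a => ((fam S h G a).filter fun p =>
            (al a ≤ p.1 ∧ p.2 ≤ L + om a) ∧ ¬ p.1 < L).card
      _ = ∑ a, (nn (fam S h G a) (al a) (L + om a) +
            nn (fam S h G a) (om (a + 2)) (al a)) := by
          rw [← sum_add_distrib]
          refine sum_congr rfl fun a _ => ?_
          rw [← hsplit a]
          ring
  · -- two rows
    intro a k k' c c' hkk hk' hc hc' hG hG'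
    have h1 := nn_split (F := fam S h G a) (u := om (a + 2)) (v := al a) k
      (fun p hp h1 h2 => hcut a k c (by omega) hc hG _ _ p hp h1 h2)
    have h2 := nn_split (F := fam S h G a) (u := k) (v := al a) k'
      (fun p hp h1 h2 => hcut a k' c' hk' hc' hG' _ _ p hp h1 h2)
    have h3 := nn_le (hlam a) hh (om (a + 2)) k
    have h4 := nn_le (hlam a) hh k k'
    have h5 := nn_le (hlam a) hh k' (al a)
    have h6 := hal a
    have h7 := hrow a k c (by omega) hc hG
    have h8 := hrow a k' c' hk' hc' hG'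
    show nn (fam S h G a) (om (a + 2)) (al a) = 0 ∨
      nn (fam S h G a) (om (a + 2)) (al a) + h + om (a + 2) ≤ k + 1 ∨
      nn (fam S h G a) (om (a + 2)) (al a) + h + k ≤ k' + 1 ∨
      nn (fam S h G a) (om (a + 2)) (al a) + h + k' ≤ al a + 1
    omega
  · -- two blocks
    intro a
    have h6 := hal a
    have h7 := horder a
    obtain ⟨a1, b1, hab1, hs1, hc1⟩ := sp_cases (rws S G a z h) (om (a + 2))
    obtain ⟨a2, b2, hab2, hs2, hc2⟩ := sp_cases (rws S G a h (L - z)) (al a)
    rw [hs1, hs2]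
    have g1 : om (a + 2) ≤ a1 ∧ a1 ≤ b1 ∧ b1 ≤ al a ∧ b1 - a1 < h ∧
        (∀ u v : ℕ, om (a + 2) ≤ u → v ≤ al a → ∀ p ∈ fam S h G a, u ≤ p.1 → p.2 ≤ v →
          p.2 ≤ a1 ∨ a1 ≤ p.1) ∧
        (∀ u v : ℕ, om (a + 2) ≤ u → v ≤ al a → ∀ p ∈ fam S h G a, u ≤ p.1 → p.2 ≤ v →
          p.2 ≤ b1 ∨ b1 ≤ p.1) := by
      rcases hc1 with ⟨m1, m2⟩ | ⟨-, m1, m2⟩
      · rw [mem_rws] at m1 m2
        obtain ⟨m11, m12, c, m13, m14⟩ := m1
        obtain ⟨m21, m22, c', m23, m24⟩ := m2
        have r1 := hrow a a1 c (by omega) m13 m14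
        have r2 := hrow a b1 c' (by omega) m23 m24
        exact ⟨r1.1, hab1, r2.2, by omega, fun u v _ _ p hp h1 h2 =>
          hcut a a1 c (by omega) m13 m14 u v p hp h1 h2, fun u v _ _ p hp h1 h2 =>
          hcut a b1 c' (by omega) m23 m24 u v p hp h1 h2⟩
      · exact ⟨by omega, hab1, by omega, by omega, fun u v _ _ p hp h1 h2 => Or.inr (by omega),
          fun u v _ _ p hp h1 h2 => Or.inr (by omega)⟩
    have g2 : om (a + 2) ≤ a2 ∧ a2 ≤ b2 ∧ b2 ≤ al a ∧ b2 - a2 < h ∧
        (∀ u v : ℕ, om (a + 2) ≤ u → v ≤ al a → ∀ p ∈ fam S h G a, u ≤ p.1 → p.2 ≤ v →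
          p.2 ≤ a2 ∨ a2 ≤ p.1) ∧
        (∀ u v : ℕ, om (a + 2) ≤ u → v ≤ al a → ∀ p ∈ fam S h G a, u ≤ p.1 → p.2 ≤ v →
          p.2 ≤ b2 ∨ b2 ≤ p.1) := by
      rcases hc2 with ⟨m1, m2⟩ | ⟨-, m1, m2⟩
      · rw [mem_rws] at m1 m2
        obtain ⟨m11, m12, c, m13, m14⟩ := m1
        obtain ⟨m21, m22, c', m23, m24⟩ := m2
        have r1 := hrow a a2 c (by omega) m13 m14
        have r2 := hrow a b2 c' (by omega) m23 m24
        exact ⟨r1.1, hab2, r2.2, by omega, fun u v _ _ p hp h1 h2 =>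
          hcut a a2 c (by omega) m13 m14 u v p hp h1 h2, fun u v _ _ p hp h1 h2 =>
          hcut a b2 c' (by omega) m23 m24 u v p hp h1 h2⟩
      · exact ⟨by omega, hab2, by omega, by omega, fun u v _ _ p hp h1 h2 => Or.inl (by omega),
          fun u v _ _ p hp h1 h2 => Or.inl (by omega)⟩
    have g3 : b1 ≤ a2 := by
      rcases hc1 with ⟨-, m1⟩ | ⟨-, m1, m2⟩
      · rcases hc2 with ⟨m2, -⟩ | ⟨-, m3, m4⟩
        · rw [mem_rws] at m1 m2
          omega
        · omega
      · omega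
    obtain ⟨g11, g12, g13, g14, g15, g16⟩ := g1
    obtain ⟨g21, g22, g23, g24, g25, g26⟩ := g2
    have s1 := nn_split (F := fam S h G a) (u := om (a + 2)) (v := al a) a1
      (fun p hp h1 h2 => g15 _ _ le_rfl le_rfl p hp h1 h2)
    have s2 := nn_split (F := fam S h G a) (u := a1) (v := al a) b1
      (fun p hp h1 h2 => g16 _ _ g11 le_rfl p hp h1 h2)
    have s3 := nn_split (F := fam S h G a) (u := b1) (v := al a) a2
      (fun p hp h1 h2 => g25 _ _ (by omega) le_rfl p hp h1 h2)
    have s4 := nn_split (F := fam S h G a) (u := a2) (v := al a) b2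
      (fun p hp h1 h2 => g26 _ _ g21 le_rfl p hp h1 h2)
    have t1 := nn_le (hlam a) hh (om (a + 2)) a1
    have t2 := nn_le (hlam a) hh a1 b1
    have t3 := nn_le (hlam a) hh b1 a2
    have t4 := nn_le (hlam a) hh a2 b2
    have t5 := nn_le (hlam a) hh b2 (al a)
    show (nn (fam S h G a) (om (a + 2)) (al a) = 0 ∧ (b1 - a1) + (b2 - a2) + om (a + 2) ≤ al a) ∨
      nn (fam S h G a) (om (a + 2)) (al a) + h + (b1 - a1) + (b2 - a2) + om (a + 2) ≤ al a + 1
    omega
  · intro a t ht hG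
    have hmem : (t, L + t) ∈ fam S h G a := by
      rw [mem_fam]
      exact ⟨by show t < 2 * L; omega, by show L + t < 2 * L; omega, by show t + h ≤ L + t; omega,
        hG⟩
    have h1 := hin a (t, L + t) hmem (by show t < L; exact ht) (by show L ≤ L + t; omega)
    show 1 ≤ nn (fam S h G a) (al a) (L + om a)
    unfold nn
    rw [Nat.one_le_iff_ne_zero, card_ne_zero]
    exact ⟨(t, L + t), by rw [mem_filter]; exact ⟨hmem, h1⟩⟩

end Pool.Agent.Helper95.CFL
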