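import Pool.Agent.Helper95.CFL.Cls
import Pool.Agent.Helper95.CFL.Ari

/-!
# Costs of one colour class

`q` is the number of long chords of a class `G`; it is at most `4 h + 1`. The class is cheap if
`4 h + 1 < q + z`.
-/

namespace Pool.Agent.Helper95.CFL

open Finset

variable {κ : Type*} [DecidableEq κ] {L M : ℕ}

/-- number of long chords of colour `G` -/
def qt (S : Col κ L M) (h : ℕ) (G : κ) : ℕ := ∑ a, qq S h G a

/-- total span of the two blocks of rows of group `a` -/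
noncomputable def RR (S : Col κ L M) (h z : ℕ) (G : κ) (a : Fin 3) : ℕ :=
  sp (rws S G a z h) + sp (rws S G a h (L - z))

theorem sum3 (f : Fin 3 → ℕ) (a : Fin 3) : ∑ x, f x = f a + f (a + 1) + f (a + 2) := by
  rw [Fin.sum_univ_three]
  fin_cases a
  · rfl
  · show f 0 + f 1 + f 2 = f 1 + f 2 + f 0
    ring
  · show f 0 + f 1 + f 2 = f 2 + f 0 + f 1
    ring

theorem fin3_a (a : Fin 3) : a + 1 + 2 = a := by revert a; decide

theorem fin3_b (a : Fin 3) : a + 2 + 2 = a + 1 := by revert a; decide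

theorem fin3_c (a : Fin 3) : a + 1 + 1 = a + 2 := by revert a; decide

theorem fin3_eq : ∀ a b : Fin 3, b ≠ a + 1 → a ≠ b + 1 → a = b := by decide

theorem qt_le (S : Col κ L M) {h : ℕ} (hL : L = 2 * h) (hh : 2 ≤ h) (G : κ) :
    qt S h G ≤ 4 * h + 1 := by
  obtain ⟨al, om, C, w, h1, h2, h3, h4, h5, -, -, h8, -⟩ :=
    class_facts S hL hh (z := 0) (Nat.zero_le _) G
  have e0 := h3 0
  have e1 := h3 1
  have e2 := h3 2
  have f0 := h8 0
  have f1 := h8 1
  have f2 := h8 2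
  rw [Fin.sum_univ_three, Fin.sum_univ_three] at h5
  have hq : qt S h G ≤ (C 0 + w 0) + (C 1 + w 1) + (C 2 + w 2) := by
    unfold qt
    rw [Fin.sum_univ_three]
    exact h5
  simp only [show (0 : Fin 3) + 2 = 2 from rfl, show (1 : Fin 3) + 2 = 0 from rfl,
    show (2 : Fin 3) + 2 = 1 from rfl] at e0 e1 e2 f0 f1 f2
  refine ari_cap hL hh (h1 0) (h1 1) (h1 2) (h2 0) (h2 1) (h2 2) e0 e1 e2 (h4 0) (h4 1) (h4 2) hq
    ?_ ?_ ?_
  · omega
  · omega
  · omega

theorem lab_le (S : Col κ L M) {h z : ℕ} (hL : L = 2 * h) (hh : 2 ≤ h) (hz : z ≤ h) (G : κ) :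
    ∑ a, min (RR S h z G a) h + qt S h G ≤ 4 * h + 2 := by
  obtain ⟨al, om, C, w, h1, h2, h3, h4, h5, -, -, h8, -⟩ := class_facts S hL hh hz G
  have e0 := h3 0
  have e1 := h3 1
  have e2 := h3 2
  have f0 := h8 0
  have f1 := h8 1
  have f2 := h8 2
  rw [Fin.sum_univ_three, Fin.sum_univ_three] at h5
  have hq : qt S h G ≤ (C 0 + w 0) + (C 1 + w 1) + (C 2 + w 2) := by
    unfold qt
    rw [Fin.sum_univ_three]
    exact h5
  simp only [show (0 : Fin 3) + 2 = 2 from rfl, show (1 : Fin 3) + 2 = 0 from rfl,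
    show (2 : Fin 3) + 2 = 1 from rfl] at e0 e1 e2 f0 f1 f2
  rw [Fin.sum_univ_three]
  unfold RR
  refine ari_lab hL hh (h1 0) (h1 1) (h1 2) (h2 0) (h2 1) (h2 2) e0 e1 e2 (h4 0) (h4 1) (h4 2) hq
    ?_ ?_ ?_
  · rcases f0 with f0 | f0
    · left; omega
    · right; omega
  · rcases f1 with f1 | f1
    · left; omega
    · right; omega
  · rcases f2 with f2 | f2
    · left; omega
    · right; omega

/-- the three facts about cheap classes -/
theorem cheap_facts (S : Col κ L M) {h z : ℕ} (hL : L = 2 * h) (hz : z + 2 ≤ h) (G : κ)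
    (hc : 4 * h + 1 < qt S h G + z) (a : Fin 3) {k : ℕ} (hk : k ∈ rws S G a z (L - z)) :
    (∀ t < L, S.A (a + 1) t (L + t) ≠ G) ∧ rws S G (a + 1) z (L - z) = ∅ ∧
      sp (rws S G a z (L - z)) + qt S h G ≤ 4 * h + 1 := by
  obtain ⟨al, om, C, w, h1, h2, h3, h4, h5, h6, h7, h8, h9⟩ :=
    class_facts S hL (by omega) (z := z) (by omega) G
  have hq : qt S h G ≤ (C a + w a) + (C (a + 1) + w (a + 1)) + (C (a + 2) + w (a + 2)) := by
    rw [sum3 (fun a => C a + w a) a] at h5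
    exact h5
  have e0 := h3 a
  have e1 := h3 (a + 1)
  have e2 := h3 (a + 2)
  have f1 := h8 (a + 1)
  have f2 := h8 (a + 2)
  rw [fin3_a] at e1 f1
  rw [fin3_b] at e2 f2
  have w1 : w (a + 1) = 0 ∨ w (a + 1) + h + om a ≤ al (a + 1) + 1 := by omega
  have w2 : w (a + 2) = 0 ∨ w (a + 2) + h + om (a + 1) ≤ al (a + 2) + 1 := by omega
  obtain ⟨k1, k2, c, hc1, hc2⟩ := mem_rws.1 hk
  have r1 := h6 a k c (by omega) hc1 hc2
  have w0 : w a = 0 ∨ w a + h + om (a + 2) ≤ k + 1 ∨ w a + h + k ≤ al a + 1 := by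
    have := h7 a k k c c le_rfl (by omega) hc1 hc1 hc2 hc2
    omega
  refine ⟨?_, ?_, ?_⟩
  · intro t ht hG
    have g1 := h9 (a + 1) t ht hG
    have := ari_opp hL hz (h1 a) (h1 (a + 1)) (h1 (a + 2)) (h2 a) (h2 (a + 1)) (h2 (a + 2)) e0 e1
      e2 (h4 a) (by have := h4 (a + 1); omega) (h4 (a + 2)) hq r1.1 r1.2 k1 (by omega) w0 w1 w2
    omega
  · rw [eq_empty_iff_forall_notMem]
    intro k' hk'
    obtain ⟨k1', k2', c', hc1', hc2'⟩ := mem_rws.1 hk'
    have r2 := h6 (a + 1) k' c' (by omega) hc1' hc2'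
    rw [fin3_a] at r2
    have w1' : w (a + 1) = 0 ∨ w (a + 1) + h + om a ≤ k' + 1 ∨
        w (a + 1) + h + k' ≤ al (a + 1) + 1 := by
      have := h7 (a + 1) k' k' c' c' le_rfl (by omega) hc1' hc1' hc2' hc2'
      rw [fin3_a] at this
      omega
    have := ari_two hL hz (h1 a) (h1 (a + 1)) (h1 (a + 2)) (h2 a) (h2 (a + 1)) (h2 (a + 2)) e0 e1
      e2 (h4 a) (h4 (a + 1)) (h4 (a + 2)) hq r1.1 r1.2 k1 (by omega) r2.1 r2.2 k1' (by omega)
      w0 w1' w2
    omega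
  · obtain ⟨s, t, hs, ht, hsk, hkt, hsp⟩ := sp_bound hk
    rw [hsp]
    obtain ⟨s1, s2, cs, hcs1, hcs2⟩ := mem_rws.1 hs
    obtain ⟨t1, t2, ct, hct1, hct2⟩ := mem_rws.1 ht
    have rs := h6 a s cs (by omega) hcs1 hcs2
    have rt := h6 a t ct (by omega) hct1 hct2
    have w0' := h7 a s t cs ct (by omega) (by omega) hcs1 hct1 hcs2 hct2
    exact ari_span hL hz (h1 a) (h1 (a + 1)) (h1 (a + 2)) (h2 a) (h2 (a + 1)) (h2 (a + 2)) e0 e1
      e2 (h4 a) (h4 (a + 1)) (h4 (a + 2)) hq (by omega) rs.1 rt.2 s1 (by omega) w0' w1 w2 hc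

/-- a cheap class has interior rows in at most one group -/
theorem cheap_two (S : Col κ L M) {h z : ℕ} (hL : L = 2 * h) (hz : z + 2 ≤ h) (G : κ)
    (hc : 4 * h + 1 < qt S h G + z) {a b : Fin 3} (ha : (rws S G a z (L - z)).Nonempty)
    (hb : (rws S G b z (L - z)).Nonempty) : a = b := by
  obtain ⟨k, hk⟩ := ha
  obtain ⟨k', hk'⟩ := hb
  have h1 := (cheap_facts S hL hz G hc a hk).2.1
  have h2 := (cheap_facts S hL hz G hc b hk').2.1
  have h3 : b ≠ a + 1 := by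
    rintro rfl
    rw [h1] at hk'
    exact absurd hk' (notMem_empty _)
  have h4 : a ≠ b + 1 := by
    rintro rfl
    rw [h2] at hk
    exact absurd hk (notMem_empty _)
  exact fin3_eq a b h3 h4

end Pool.Agent.Helper95.CFL
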