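import Mathlib

/-!
# Chains in a grid

A grid of rows `p ≤ i < q` and columns `x < M` is coloured so that every colour class is a chain.
If `V` is a set of `y ≤ M` colours, we choose in every row `M - y` columns such that every colour
has at most `(v - u) + (M - y)` chosen cells in the rows `u, ..., v`, and every colour of `V`
has at most `M` chosen cells.
-/

namespace Pool.Agent.Helper95.CFL

open Finset

variable {κ : Type*} [DecidableEq κ]

/-- the last column of colour `G` in the rows `p, ..., i` -/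
private def bb (E : ℕ → ℕ → κ) (p M : ℕ) (G : κ) (i : ℕ) : ℕ :=
  ((range M).filter fun x => ∃ j ∈ Icc p i, E j x = G).sup id

/-- number of colours of `V` whose last column is below `c` -/
private def BB (E : ℕ → ℕ → κ) (p M : ℕ) (V : Finset κ) (i c : ℕ) : ℕ :=
  (V.filter fun G => bb E p M G i < c).card

/-- the chosen columns -/
private def kk (E : ℕ → ℕ → κ) (p M : ℕ) (V : Finset κ) (i g : ℕ) : ℕ :=
  Nat.findGreatest (fun c => c ≤ g + BB E p M V i c) M

private theorem bb_mono (E : ℕ → ℕ → κ) (p M : ℕ) (G : κ) {i i' : ℕ} (h : i ≤ i') :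
    bb E p M G i ≤ bb E p M G i' := by
  unfold bb
  refine sup_mono ?_
  intro x hx
  rw [mem_filter] at hx ⊢
  obtain ⟨hx1, j, hj, hx2⟩ := hx
  refine ⟨hx1, j, ?_, hx2⟩
  rw [mem_Icc] at hj ⊢
  exact ⟨hj.1, hj.2.trans h⟩

private theorem le_bb (E : ℕ → ℕ → κ) {p M : ℕ} {G : κ} {i x : ℕ} (hp : p ≤ i) (hx : x < M)
    (h : E i x = G) : x ≤ bb E p M G i := by
  unfold bb
  refine le_sup (f := id) ?_
  rw [mem_filter, mem_range]
  exact ⟨hx, i, mem_Icc.2 ⟨hp, le_rfl⟩, h⟩

private theorem bb_att (E : ℕ → ℕ → κ) {p M : ℕ} {G : κ} {i x : ℕ} (h : x < bb E p M G i) :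
    ∃ j, p ≤ j ∧ j ≤ i ∧ E j (bb E p M G i) = G ∧ bb E p M G i < M := by
  have hne : ((range M).filter fun x => ∃ j ∈ Icc p i, E j x = G).Nonempty := by
    by_contra hcon
    rw [not_nonempty_iff_eq_empty] at hcon
    unfold bb at h
    rw [hcon] at h
    simp at h
  obtain ⟨y, hy, hy'⟩ := exists_mem_eq_sup _ hne id
  have hb : bb E p M G i = y := hy'
  rw [mem_filter, mem_range] at hy
  obtain ⟨h1, j, hj, h2⟩ := hy
  rw [mem_Icc] at hj
  exact ⟨j, hj.1, hj.2, by rw [hb]; exact h2, by rw [hb]; exact h1⟩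

private theorem BB_le (E : ℕ → ℕ → κ) (p M : ℕ) (V : Finset κ) (i c : ℕ) :
    BB E p M V i c ≤ V.card := card_filter_le _ _

private theorem BB_mono_c (E : ℕ → ℕ → κ) (p M : ℕ) (V : Finset κ) (i : ℕ) {c c' : ℕ}
    (h : c ≤ c') : BB E p M V i c ≤ BB E p M V i c' := by
  refine card_le_card ?_
  intro G hG
  rw [mem_filter] at hG ⊢
  exact ⟨hG.1, hG.2.trans_le h⟩

private theorem BB_anti (E : ℕ → ℕ → κ) (p M : ℕ) (V : Finset κ) (c : ℕ) {i i' : ℕ}
    (h : i ≤ i') : BB E p M V i' c ≤ BB E p M V i c := by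
  refine card_le_card ?_
  intro G hG
  rw [mem_filter] at hG ⊢
  exact ⟨hG.1, (bb_mono E p M G h).trans_lt hG.2⟩

private theorem BB_succ (E : ℕ → ℕ → κ) (p M : ℕ) (V : Finset κ) (i c : ℕ) {G : κ} (hG : G ∈ V)
    (h : bb E p M G i = c) : BB E p M V i c < BB E p M V i (c + 1) := by
  refine card_lt_card ?_
  rw [ssubset_iff_of_subset]
  · refine ⟨G, ?_, ?_⟩
    · rw [mem_filter]; exact ⟨hG, by omega⟩
    · rw [mem_filter]; rintro ⟨-, h2⟩; omega
  · intro G' hG'
    rw [mem_filter] at hG' ⊢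
    exact ⟨hG'.1, by omega⟩

private theorem kk_spec (E : ℕ → ℕ → κ) (p M : ℕ) (V : Finset κ) (i : ℕ) {g : ℕ}
    (hg : g < M - V.card) :
    kk E p M V i g < M ∧ kk E p M V i g = g + BB E p M V i (kk E p M V i g) ∧
      ∀ G ∈ V, bb E p M G i ≠ kk E p M V i g := by
  set k := kk E p M V i g with hk
  have h1 : k ≤ g + BB E p M V i k := by
    have := Nat.findGreatest_spec (P := fun c => c ≤ g + BB E p M V i c) (Nat.zero_le M)
      (Nat.zero_le _)
    exact this
  have h2 : k ≤ M := Nat.findGreatest_le M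
  have h3 : k < M := by
    rcases Nat.lt_or_ge k M with h | h
    · exact h
    · have := BB_le E p M V i k
      omega
  have h4 : ¬ (k + 1 ≤ g + BB E p M V i (k + 1)) := by
    have := Nat.findGreatest_is_greatest (P := fun c => c ≤ g + BB E p M V i c) (n := M)
      (k := k + 1) (Nat.lt_succ_self _) h3
    exact this
  have h5 : BB E p M V i k ≤ BB E p M V i (k + 1) := BB_mono_c E p M V i (Nat.le_succ k)
  refine ⟨h3, by omega, ?_⟩
  intro G hG hb
  have := BB_succ E p M V i k hG hb
  omega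

private theorem kk_strict (E : ℕ → ℕ → κ) (p M : ℕ) (V : Finset κ) (i : ℕ) {g g' : ℕ}
    (hg : g < g') (hg' : g' < M - V.card) : kk E p M V i g < kk E p M V i g' := by
  have h1 := (kk_spec E p M V i (hg.trans hg')).2.1
  have h2 := (kk_spec E p M V i hg').2.1
  have h3 : kk E p M V i g ≤ kk E p M V i g' := by
    refine Nat.findGreatest_mono (fun c (hc : c ≤ g + BB E p M V i c) => ?_) le_rfl
    show c ≤ g' + BB E p M V i c
    omega
  rcases Nat.lt_or_ge (kk E p M V i g) (kk E p M V i g') with h | h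
  · exact h
  · have h4 : kk E p M V i g = kk E p M V i g' := by omega
    rw [h4] at h1
    omega

private theorem kk_anti (E : ℕ → ℕ → κ) (p M : ℕ) (V : Finset κ) (g : ℕ) {i i' : ℕ}
    (h : i ≤ i') : kk E p M V i' g ≤ kk E p M V i g := by
  refine Nat.findGreatest_mono (fun c (hc : c ≤ g + BB E p M V i' c) => ?_) le_rfl
  show c ≤ g + BB E p M V i c
  have := BB_anti E p M V c h
  omega

theorem grid_core (E : ℕ → ℕ → κ) (p q M : ℕ)
    (hE : ∀ i i' x x', p ≤ i → i < i' → i' < q → x' < x → x < M → E i x ≠ E i' x')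
    (V : Finset κ) :
    ∃ k : ℕ → ℕ → ℕ, (∀ i g, g < M - V.card → k i g < M) ∧
      (∀ G u v, p ≤ u → u ≤ v → v < q →
        ((Icc u v ×ˢ range (M - V.card)).filter fun c => E c.1 (k c.1 c.2) = G).card ≤
          (v - u) + (M - V.card)) ∧
      (∀ G ∈ V, ((Ico p q ×ˢ range (M - V.card)).filter fun c => E c.1 (k c.1 c.2) = G).card ≤
          M) := by
  refine ⟨kk E p M V, fun i g hg => (kk_spec E p M V i hg).1, ?_, ?_⟩
  · intro G u v hu huv hv
    have hcard : (Ico u (v + (M - V.card))).card = v + (M - V.card) - u := Nat.card_Ico _ _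
    refine (card_le_card_of_injOn (t := Ico u (v + (M - V.card))) (fun c => c.1 + c.2) ?_ ?_).trans
      (by rw [hcard]; omega)
    · intro c hc
      rw [mem_coe, mem_filter, mem_product, mem_Icc, mem_range] at hc
      rw [mem_coe, mem_Ico]
      show u ≤ c.1 + c.2 ∧ c.1 + c.2 < v + (M - V.card)
      omega
    · have key : ∀ c c' : ℕ × ℕ, c ∈ (Icc u v ×ˢ range (M - V.card)).filter
          (fun c => E c.1 (kk E p M V c.1 c.2) = G) →
          c' ∈ (Icc u v ×ˢ range (M - V.card)).filter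
          (fun c => E c.1 (kk E p M V c.1 c.2) = G) → c.1 + c.2 = c'.1 + c'.2 →
          ¬ c.1 < c'.1 := by
        intro c c' hc hc' hs hlt
        rw [mem_filter, mem_product, mem_Icc, mem_range] at hc hc'
        have h1 : kk E p M V c'.1 c'.2 ≤ kk E p M V c.1 c'.2 := kk_anti E p M V _ hlt.le
        have h2 : kk E p M V c.1 c'.2 < kk E p M V c.1 c.2 :=
          kk_strict E p M V _ (by omega) hc.1.2
        exact hE c.1 c'.1 _ _ (hu.trans hc.1.1.1) hlt (by omega) (h1.trans_lt h2)
          (kk_spec E p M V c.1 hc.1.2).1 (hc.2.trans hc'.2.symm)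
      intro c hc c' hc' hs
      have h1 := key c c' hc hc' hs
      have h2 := key c' c hc' hc hs.symm
      have hs' : c.1 + c.2 = c'.1 + c'.2 := hs
      exact Prod.ext (by omega) (by omega)
  · intro G hG
    refine (card_le_card_of_injOn (t := range M) (fun c => kk E p M V c.1 c.2) ?_ ?_).trans
      (by rw [card_range])
    · intro c hc
      rw [mem_coe, mem_filter, mem_product, mem_Ico, mem_range] at hc
      rw [mem_coe, mem_range]
      exact (kk_spec E p M V c.1 hc.1.2).1
    · have key : ∀ c c' : ℕ × ℕ, c ∈ (Ico p q ×ˢ range (M - V.card)).filter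
          (fun c => E c.1 (kk E p M V c.1 c.2) = G) →
          c' ∈ (Ico p q ×ˢ range (M - V.card)).filter
          (fun c => E c.1 (kk E p M V c.1 c.2) = G) →
          kk E p M V c.1 c.2 = kk E p M V c'.1 c'.2 → ¬ c.1 < c'.1 := by
        intro c c' hc hc' hs hlt
        rw [mem_filter, mem_product, mem_Ico, mem_range] at hc hc'
        obtain ⟨h1, h2, h3⟩ := kk_spec E p M V c.1 hc.1.2
        have h4 : kk E p M V c.1 c.2 ≤ bb E p M G c.1 := le_bb E hc.1.1.1 h1 hc.2
        have h5 : kk E p M V c.1 c.2 < bb E p M G c.1 :=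
          lt_of_le_of_ne h4 fun h => h3 G hG h.symm
        obtain ⟨j, hj1, hj2, hj3, hj4⟩ := bb_att E h5
        refine hE j c'.1 _ _ hj1 (hj2.trans_lt hlt) hc'.1.1.2 ?_ hj4 (hj3.trans hc'.2.symm)
        rw [← hs]
        exact h5
      intro c hc c' hc' hs
      have h1 := key c c' hc hc' hs
      have h2 := key c' c hc' hc hs.symm
      have h3 : c.1 = c'.1 := by omega
      have hs' : kk E p M V c.1 c.2 = kk E p M V c'.1 c'.2 := hs
      rw [mem_coe, mem_filter, mem_product, mem_Ico, mem_range] at hc hc'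
      rcases Nat.lt_trichotomy c.2 c'.2 with h | h | h
      · have := kk_strict E p M V c.1 h hc'.1.2
        rw [← h3] at hs'
        omega
      · exact Prod.ext h3 h
      · have := kk_strict E p M V c.1 h hc.1.2
        rw [← h3] at hs'
        omega

end Pool.Agent.Helper95.CFL
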