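import Pool.Agent.Helper95.CFL.Cost
import Pool.Agent.Helper95.CFL.Grid

/-!
# Adding up over all colour classes
-/

namespace Pool.Agent.Helper95.CFL

open Finset

variable {κ : Type*} [DecidableEq κ] [Fintype κ] {L M : ℕ}

private theorem sum_sub (h : ℕ) : ∀ n, n ≤ 3 * h → ∑ x ∈ range n, (3 * h - x) * 2 + n * (n - 1) =
    6 * h * n := by
  intro n
  induction n with
  | zero => intro _; simp
  | succ n ih =>
    intro hn
    have h1 := ih (by omega)
    rw [sum_range_succ]
    rcases Nat.eq_zero_or_pos n with h0 | h0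
    · subst h0
      simp
      ring
    · obtain ⟨m, rfl⟩ : ∃ m, n = m + 1 := ⟨n - 1, by omega⟩
      obtain ⟨r, hr⟩ : ∃ r, 3 * h = m + 1 + r := ⟨3 * h - (m + 1), by omega⟩
      have e1 : m + 1 - 1 = m := by omega
      have e2 : m + 1 + 1 - 1 = m + 1 := by omega
      have e3 : 3 * h - (m + 1) = r := by omega
      rw [e1] at h1
      rw [e2, e3]
      have e4 : 6 * h = 2 * (m + 1 + r) := by omega
      rw [e4] at h1 ⊢
      nlinarith

/-- the number of long chords -/
theorem total_q (S : Col κ L M) {h : ℕ} (hL : L = 2 * h) (hh : 1 ≤ h) :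
    ∑ G, qt S h G = 3 * (h * (4 * h + 1)) := by
  unfold qt
  rw [sum_comm]
  have key : ∀ a, ∑ G, qq S h G a = h * (4 * h + 1) := by
    intro a
    have h1 : ∀ G, qq S h G a = (((range (2 * L) ×ˢ range (2 * L)).filter fun p =>
        p.1 + h ≤ p.2 ∧ p.1 < L).filter fun p => S.A a p.1 p.2 = G).card := by
      intro G
      unfold qq fam
      rw [filter_filter, filter_filter]
      congr 1
      refine filter_congr fun p _ => ?_
      tauto
    rw [sum_congr rfl fun G _ => h1 G]
    rw [← card_eq_sum_card_fiberwise (f := fun p : ℕ × ℕ => S.A a p.1 p.2)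
      (t := (univ : Finset κ)) (fun p _ => by simp)]
    have h2 : (range (2 * L) ×ˢ range (2 * L)).filter
        (fun p : ℕ × ℕ => p.1 + h ≤ p.2 ∧ p.1 < L) =
        ((range L).sigma (fun x => Ico (x + h) (2 * L))).map
          ⟨fun s : (_ : ℕ) × ℕ => ((s.1, s.2) : ℕ × ℕ), fun s t hst => by
            rcases s with ⟨s1, s2⟩
            rcases t with ⟨t1, t2⟩
            simp only [Prod.mk.injEq] at hst
            rw [hst.1, hst.2]⟩ := by
      ext ⟨x, y⟩
      simp only [mem_filter, mem_product, mem_range, mem_map, mem_sigma, mem_Ico]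
      constructor
      · rintro ⟨⟨h1, h2⟩, h3, h4⟩
        exact ⟨⟨x, y⟩, ⟨h4, h3, h2⟩, rfl⟩
      · rintro ⟨⟨x', y'⟩, ⟨h1, h2, h3⟩, h4⟩
        have h5 : x' = x := congrArg Prod.fst h4
        have h6 : y' = y := congrArg Prod.snd h4
        subst h5 h6
        have h1' : x' < L := h1
        have h2' : x' + h ≤ y' := h2
        have h3' : y' < 2 * L := h3
        exact ⟨⟨by omega, h3'⟩, h2', h1'⟩
    rw [h2, card_map, card_sigma]
    simp only [Nat.card_Ico]
    have h3 := sum_sub h L (by omega)
    rw [← sum_mul] at h3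
    have h4 : ∑ x ∈ range L, (2 * L - (x + h)) = ∑ x ∈ range L, (3 * h - x) := by
      refine sum_congr rfl fun x _ => ?_
      omega
    rw [h4]
    obtain ⟨m, rfl⟩ : ∃ m, h = m + 1 := ⟨h - 1, by omega⟩
    rw [hL] at h3 ⊢
    have e : 2 * (m + 1) - 1 = 2 * m + 1 := by omega
    rw [e] at h3
    nlinarith
  rw [sum_congr rfl fun a _ => key a, Fin.sum_univ_three]
  ring

open Classical in
/-- colours of the cheap classes with an interior row in group `a` -/
noncomputable def hubs (S : Col κ L M) (h z : ℕ) (a : Fin 3) : Finset κ :=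
  univ.filter fun G => 4 * h + 1 < qt S h G + z ∧ (rws S G a z (L - z)).Nonempty

/-- colours of the costly classes -/
def cst (S : Col κ L M) (h z : ℕ) : Finset κ :=
  univ.filter fun G => qt S h G + z ≤ 4 * h + 1

/-- label of a class in a group -/
noncomputable def lab (S : Col κ L M) (h z : ℕ) (G : κ) (a : Fin 3) : ℕ :=
  if qt S h G + z ≤ 4 * h + 1 then min (RR S h z G a) h else sp (rws S G a z (L - z))

omit [Fintype κ] in
theorem lab_sum (S : Col κ L M) {h z : ℕ} (hL : L = 2 * h) (hh : 2 ≤ h) (hz : z + 2 ≤ h)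
    (G : κ) : ∑ a, lab S h z G a + qt S h G ≤ 4 * h + 2 := by
  by_cases hc : qt S h G + z ≤ 4 * h + 1
  · have : ∀ a, lab S h z G a = min (RR S h z G a) h := by
      intro a
      unfold lab
      rw [if_pos hc]
    rw [sum_congr rfl fun a _ => this a]
    exact lab_le S hL hh (by omega) G
  · have h1 : ∀ a, lab S h z G a = sp (rws S G a z (L - z)) := by
      intro a
      unfold lab
      rw [if_neg hc]
    by_cases hne : ∃ a, (rws S G a z (L - z)).Nonempty
    · obtain ⟨a, ha⟩ := hne
      have h2 : ∑ a, lab S h z G a = lab S h z G a := by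
        refine sum_eq_single a ?_ (fun h => absurd (mem_univ a) h)
        intro b _ hb
        rw [h1]
        have : ¬ (rws S G b z (L - z)).Nonempty := fun hb' =>
          hb (cheap_two S hL hz G (by omega) hb' ha)
        unfold sp
        rw [dif_neg this]
      rw [h2, h1]
      obtain ⟨k, hk⟩ := ha
      have := (cheap_facts S hL hz G (by omega) a hk).2.2
      omega
    · have h2 : ∑ a, lab S h z G a = 0 := by
        refine sum_eq_zero fun a _ => ?_
        rw [h1]
        unfold sp
        rw [dif_neg fun h => hne ⟨a, h⟩]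
      have := qt_le S hL hh G
      omega

theorem hubs_card (S : Col κ L M) {h z : ℕ} (hL : L = 2 * h) (hz : z + 2 ≤ h) (a : Fin 3) :
    (hubs S h z a).card + 2 * h ≤ Fintype.card κ := by
  classical
  have hinj : Set.InjOn (fun t => S.A (a + 1) t (L + t)) (range L : Set ℕ) := by
    intro t ht t' ht' htt
    rw [mem_coe, mem_range] at ht ht'
    have htt' : S.A (a + 1) t (L + t) = S.A (a + 1) t' (L + t') := htt
    rcases Nat.lt_trichotomy t t' with h1 | h1 | h1
    · exact absurd htt' (S.lam (a + 1) t t' (L + t) (L + t') h1 (by omega) (by omega) (by omega))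
    · exact h1
    · exact absurd htt'.symm
        (S.lam (a + 1) t' t (L + t') (L + t) h1 (by omega) (by omega) (by omega))
  have hcard : ((range L).image fun t => S.A (a + 1) t (L + t)).card = 2 * h := by
    rw [card_image_of_injOn hinj, card_range, hL]
  have hdis : Disjoint (hubs S h z a) ((range L).image fun t => S.A (a + 1) t (L + t)) := by
    rw [disjoint_left]
    intro G hG hG'
    unfold hubs at hG
    rw [mem_filter] at hG
    obtain ⟨-, hc, k, hk⟩ := hG
    rw [mem_image] at hG'
    obtain ⟨t, ht, rfl⟩ := hG'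
    rw [mem_range] at ht
    exact (cheap_facts S hL hz _ hc a hk).1 t ht rfl
  rw [← hcard, ← card_union_of_disjoint hdis]
  exact card_le_univ _

omit [Fintype κ] in
theorem block_count (S : Col κ L M) {z m : ℕ} {k : ℕ → ℕ → ℕ} {a : Fin 3}
    (hk1 : ∀ i g, g < m → k i g < M)
    (hk2 : ∀ G u v, z ≤ u → u ≤ v → v < L - z →
      ((Icc u v ×ˢ range m).filter fun c => S.E a c.1 (k c.1 c.2) = G).card ≤ (v - u) + m)
    (G : κ) {u v : ℕ} (hu : z ≤ u) (hv : v ≤ L - z) :
    ((Ico u v ×ˢ range m).filter fun c => S.E a c.1 (k c.1 c.2) = G).card ≤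
      sp (rws S G a u v) + (if (rws S G a u v).Nonempty then m else 0) := by
  have hmem : ∀ c : ℕ × ℕ, c ∈ (Ico u v ×ˢ range m).filter
      (fun c => S.E a c.1 (k c.1 c.2) = G) → c.1 ∈ rws S G a u v := by
    intro c hc
    rw [mem_filter, mem_product, mem_Ico, mem_range] at hc
    rw [mem_rws]
    exact ⟨hc.1.1.1, hc.1.1.2, k c.1 c.2, hk1 _ _ hc.1.2, hc.2⟩
  by_cases hne : (rws S G a u v).Nonempty
  · rw [if_pos hne]
    obtain ⟨s, t, hs, ht, hst, hsp, hr⟩ := sp_range hne
    rw [mem_rws] at hs ht
    rw [hsp]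
    refine (card_le_card ?_).trans (hk2 G s t (by omega) hst (by omega))
    intro c hc
    have h1 := hr c.1 (hmem c hc)
    rw [mem_filter, mem_product, mem_range] at hc ⊢
    rw [mem_Icc]
    exact ⟨⟨h1, hc.1.2⟩, hc.2⟩
  · have : ((Ico u v ×ˢ range m).filter fun c => S.E a c.1 (k c.1 c.2) = G) = ∅ := by
      rw [eq_empty_iff_forall_notMem]
      intro c hc
      exact hne ⟨c.1, hmem c hc⟩
    rw [this]
    simp

/-- the number of colours is at least `3 h` -/
theorem card_ge (S : Col κ L M) {h : ℕ} (hL : L = 2 * h) (hh : 2 ≤ h) :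
    3 * h ≤ Fintype.card κ := by
  have h4 := total_q S hL (by omega)
  have h5 : ∑ G, qt S h G ≤ Fintype.card κ * (4 * h + 1) := by
    calc ∑ G, qt S h G ≤ ∑ _G : κ, (4 * h + 1) := sum_le_sum fun G _ => qt_le S hL hh G
      _ = Fintype.card κ * (4 * h + 1) := by rw [sum_const, smul_eq_mul, card_univ]
  rw [h4, ← mul_assoc] at h5
  exact Nat.le_of_mul_le_mul_right h5 (by omega)

/-- the count in one group -/
theorem group_count (S : Col κ L M) {h z : ℕ} (hL : L = 2 * h) (hz : z + 2 ≤ h)
    (hM : M ≤ 2 * z) (a : Fin 3) :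
    ((4 * h : ℤ) - 2 * z - Fintype.card κ - 2 * (cst S h z).card) * M ≤
      ((∑ G, lab S h z G a : ℕ) : ℤ) := by
  classical
  have hh : 2 ≤ h := by omega
  set V : Finset κ := univ.filter fun G => qt S h G + z ≤ 4 * h + 1 ∧ h ≤ RR S h z G a with hV
  set y := V.card with hy
  have hK := hubs_card S hL hz a
  have hK3 := card_ge S hL hh
  have hVlab : ∀ G ∈ V, lab S h z G a = h := by
    intro G hG
    rw [hV, mem_filter] at hG
    unfold lab
    rw [if_pos hG.2.1]
    exact min_eq_right hG.2.2
  have hVsum : ∑ G ∈ V, lab S h z G a = y * h := by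
    rw [sum_congr rfl hVlab, sum_const, smul_eq_mul]
  have hsplit : ∑ G, lab S h z G a = ∑ G ∈ V, lab S h z G a + ∑ G ∈ Vᶜ, lab S h z G a :=
    (sum_add_sum_compl V _).symm
  have hn0 : (0 : ℤ) ≤ (cst S h z).card := Int.natCast_nonneg _
  have hM0 : (0 : ℤ) ≤ M := Int.natCast_nonneg _
  have hy0 : (0 : ℤ) ≤ y := Int.natCast_nonneg _
  have hK3' : (3 * h : ℤ) ≤ Fintype.card κ := by exact_mod_cast hK3
  have hD : ((4 * h : ℤ) - 2 * z - Fintype.card κ - 2 * (cst S h z).card) ≤ h - M := by
    have : (M : ℤ) ≤ 2 * z := by exact_mod_cast hM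
    omega
  rcases Nat.lt_or_ge M y with hMy | hMy
  · -- many vertical classes
    have h1 : y * h ≤ ∑ G, lab S h z G a := by rw [hsplit, hVsum]; omega
    have h2 : ((y * h : ℕ) : ℤ) ≤ ((∑ G, lab S h z G a : ℕ) : ℤ) := by exact_mod_cast h1
    rw [Nat.cast_mul] at h2
    have h4 : (M : ℤ) ≤ y := by exact_mod_cast hMy.le
    have h6 : (0 : ℤ) ≤ h := Int.natCast_nonneg _
    refine le_trans ?_ h2
    calc ((4 * h : ℤ) - 2 * z - Fintype.card κ - 2 * (cst S h z).card) * M ≤ h * M :=
          mul_le_mul_of_nonneg_right (by omega) hM0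
      _ ≤ y * h := by nlinarith
  · obtain ⟨k, hk1, hk2, hk3⟩ := grid_core (S.E a) z (L - z) M (fun i i' x x' _ hii hi' hxx hx =>
      S.chain a i i' x x' hii (by omega) hxx hx) V
    rw [← hy] at hk1 hk2 hk3
    -- the total
    have htot : ∑ G, ((Ico z (L - z) ×ˢ range (M - y)).filter
        fun c => S.E a c.1 (k c.1 c.2) = G).card = (2 * h - 2 * z) * (M - y) := by
      rw [← card_eq_sum_card_fiberwise (f := fun c : ℕ × ℕ => S.E a c.1 (k c.1 c.2))
        (t := (univ : Finset κ)) (fun p _ => by simp), card_product, Nat.card_Ico, card_range]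
      congr 1
      omega
    -- the bound outside V
    have hout : ∀ G ∈ Vᶜ, ((Ico z (L - z) ×ˢ range (M - y)).filter
        fun c => S.E a c.1 (k c.1 c.2) = G).card ≤ lab S h z G a +
        (if G ∈ hubs S h z a then M - y else 0) + (if G ∈ cst S h z then 2 * (M - y) else 0) := by
      intro G hG
      rw [mem_compl, hV, mem_filter] at hG
      by_cases hc : qt S h G + z ≤ 4 * h + 1
      · -- costly
        have hR : RR S h z G a < h := by
          by_contra hcon
          exact hG ⟨mem_univ _, hc, by omega⟩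
        have hlab : lab S h z G a = sp (rws S G a z h) + sp (rws S G a h (L - z)) := by
          unfold lab
          rw [if_pos hc]
          exact min_eq_left hR.le
        have hcst : G ∈ cst S h z := by
          unfold cst
          rw [mem_filter]
          exact ⟨mem_univ _, hc⟩
        rw [hlab, if_pos hcst]
        have b1 := block_count S hk1 hk2 G (u := z) (v := h) le_rfl (by omega)
        have b2 := block_count S hk1 hk2 G (u := h) (v := L - z) (by omega) le_rfl
        have b3 : (if (rws S G a z h).Nonempty then M - y else 0) ≤ M - y := by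
          split_ifs <;> omega
        have b4 : (if (rws S G a h (L - z)).Nonempty then M - y else 0) ≤ M - y := by
          split_ifs <;> omega
        have hsub : ((Ico z (L - z) ×ˢ range (M - y)).filter
            fun c => S.E a c.1 (k c.1 c.2) = G) ⊆
            ((Ico z h ×ˢ range (M - y)).filter fun c => S.E a c.1 (k c.1 c.2) = G) ∪
            ((Ico h (L - z) ×ˢ range (M - y)).filter fun c => S.E a c.1 (k c.1 c.2) = G) := by
          intro c hc
          rw [mem_filter, mem_product, mem_Ico] at hc
          rw [mem_union, mem_filter, mem_product, mem_Ico, mem_filter, mem_product, mem_Ico]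
          rcases Nat.lt_or_ge c.1 h with h1 | h1
          · exact Or.inl ⟨⟨⟨hc.1.1.1, h1⟩, hc.1.2⟩, hc.2⟩
          · exact Or.inr ⟨⟨⟨h1, hc.1.1.2⟩, hc.1.2⟩, hc.2⟩
        have b5 := (card_le_card hsub).trans (card_union_le _ _)
        omega
      · -- cheap
        have hlab : lab S h z G a = sp (rws S G a z (L - z)) := by
          unfold lab
          rw [if_neg hc]
        rw [hlab]
        have b1 := block_count S hk1 hk2 G (u := z) (v := L - z) le_rfl le_rfl
        have b2 : (if (rws S G a z (L - z)).Nonempty then M - y else 0) =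
            (if G ∈ hubs S h z a then M - y else 0) := by
          have : G ∈ hubs S h z a ↔ (rws S G a z (L - z)).Nonempty := by
            unfold hubs
            rw [mem_filter]
            constructor
            · exact fun h => h.2.2
            · exact fun h => ⟨mem_univ _, by omega, h⟩
          simp only [this]
        rw [← b2]
        omega
    have hin : ∀ G ∈ V, ((Ico z (L - z) ×ˢ range (M - y)).filter
        fun c => S.E a c.1 (k c.1 c.2) = G).card ≤ M := fun G hG => hk3 G hG
    have h1 : (2 * h - 2 * z) * (M - y) ≤ y * M + (∑ G ∈ Vᶜ, lab S h z G a +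
        (hubs S h z a).card * (M - y) + (cst S h z).card * (2 * (M - y))) := by
      rw [← htot, ← sum_add_sum_compl V]
      refine add_le_add ?_ ?_
      · refine (sum_le_sum hin).trans ?_
        rw [sum_const, smul_eq_mul]
      · refine (sum_le_sum hout).trans ?_
        rw [sum_add_distrib, sum_add_distrib]
        refine add_le_add (add_le_add le_rfl ?_) ?_
        · rw [← sum_filter, sum_const, smul_eq_mul]
          refine Nat.mul_le_mul_right _ (card_le_card ?_)
          intro G hG
          exact (mem_filter.1 hG).2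
        · rw [← sum_filter, sum_const, smul_eq_mul]
          refine Nat.mul_le_mul_right _ (card_le_card ?_)
          intro G hG
          exact (mem_filter.1 hG).2
    have h2 : (2 * h - 2 * z) * (M - y) + y * h ≤ y * M + ∑ G, lab S h z G a +
        (hubs S h z a).card * (M - y) + (cst S h z).card * (2 * (M - y)) := by
      rw [hsplit, hVsum]
      omega
    obtain ⟨m, hm⟩ : ∃ m, M = y + m := ⟨M - y, by omega⟩
    have e1 : M - y = m := by omega
    rw [e1] at h2
    have h3 : ((2 * h : ℤ) - 2 * z) * m + y * h ≤ y * M + ((∑ G, lab S h z G a : ℕ) : ℤ) +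
        (hubs S h z a).card * m + (cst S h z).card * (2 * m) := by
      have e2 : ((2 * h - 2 * z : ℕ) : ℤ) = 2 * h - 2 * z := by
        rw [Nat.cast_sub (by omega)]
        push_cast
        ring
      rw [← e2]
      exact_mod_cast h2
    have h4 : ((hubs S h z a).card : ℤ) ≤ Fintype.card κ - 2 * h := by
      have : ((hubs S h z a).card : ℤ) + 2 * h ≤ Fintype.card κ := by exact_mod_cast hK
      linarith
    have hm0 : (0 : ℤ) ≤ m := Int.natCast_nonneg _
    have h5 : ((hubs S h z a).card : ℤ) * m ≤ (Fintype.card κ - 2 * h) * m :=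
      mul_le_mul_of_nonneg_right h4 hm0
    have hMm : (M : ℤ) = y + m := by exact_mod_cast hm
    have h6 : ((4 * h : ℤ) - 2 * z - Fintype.card κ - 2 * (cst S h z).card) * y ≤ (h - M) * y :=
      mul_le_mul_of_nonneg_right hD hy0
    generalize ((∑ G, lab S h z G a : ℕ) : ℤ) = Lb at *
    nlinarith

/-- **The combinatorial inequality.** -/
theorem main_ineq (S : Col κ L M) {h z : ℕ} (hL : L = 2 * h) (hz : z + 2 ≤ h)
    (hM : M ≤ 2 * z) :
    3 * h ≤ Fintype.card κ ∧ ∃ n : ℕ,
      (n : ℤ) * z ≤ (Fintype.card κ - 3 * h) * (4 * h + 1) ∧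
      3 * (((4 * h : ℤ) - 2 * z - Fintype.card κ - 2 * n) * M) ≤
        (Fintype.card κ - 3 * h) * (4 * h + 1) + Fintype.card κ := by
  have hh : 2 ≤ h := by omega
  refine ⟨card_ge S hL hh, (cst S h z).card, ?_, ?_⟩
  · have h1 : ∑ G, (4 * h + 1 - qt S h G) + ∑ G, qt S h G = Fintype.card κ * (4 * h + 1) := by
      rw [← sum_add_distrib, sum_congr rfl (g := fun _ => 4 * h + 1), sum_const, smul_eq_mul,
        card_univ]
      intro G _
      have := qt_le S hL hh G
      omega
    have h2 : (cst S h z).card * z ≤ ∑ G, (4 * h + 1 - qt S h G) := by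
      calc (cst S h z).card * z = ∑ _G ∈ cst S h z, z := by rw [sum_const, smul_eq_mul]
        _ ≤ ∑ G ∈ cst S h z, (4 * h + 1 - qt S h G) := by
            refine sum_le_sum fun G hG => ?_
            unfold cst at hG
            rw [mem_filter] at hG
            omega
        _ ≤ ∑ G, (4 * h + 1 - qt S h G) :=
            sum_le_sum_of_subset (subset_univ _)
    rw [total_q S hL (by omega)] at h1
    have h3 : (cst S h z).card * z + 3 * (h * (4 * h + 1)) ≤ Fintype.card κ * (4 * h + 1) := by
      omega
    have h4 : (((cst S h z).card : ℤ)) * z + 3 * (h * (4 * h + 1)) ≤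
        Fintype.card κ * (4 * h + 1) := by exact_mod_cast h3
    linarith
  · have h1 : ∑ a, ∑ G, lab S h z G a + ∑ G, qt S h G ≤ Fintype.card κ * (4 * h + 2) := by
      rw [sum_comm, ← sum_add_distrib]
      calc ∑ G, (∑ a, lab S h z G a + qt S h G) ≤ ∑ _G : κ, (4 * h + 2) :=
            sum_le_sum fun G _ => lab_sum S hL hh hz G
        _ = Fintype.card κ * (4 * h + 2) := by rw [sum_const, smul_eq_mul, card_univ]
    rw [total_q S hL (by omega), Fin.sum_univ_three] at h1
    have g0 := group_count S hL hz hM 0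
    have g1 := group_count S hL hz hM 1
    have g2 := group_count S hL hz hM 2
    have h2 : ((∑ G, lab S h z G 0 : ℕ) : ℤ) + ((∑ G, lab S h z G 1 : ℕ) : ℤ) +
        ((∑ G, lab S h z G 2 : ℕ) : ℤ) + 3 * (h * (4 * h + 1)) ≤
        Fintype.card κ * (4 * h + 2) := by exact_mod_cast h1
    linarith

end Pool.Agent.Helper95.CFL
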