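import Mathlib

/-!
# The points: orientations

Three groups `gp a s` (`s` in `[0, 1/20]`) on convex arcs near the corners of a triangle, and
points `cp r` (`r` in `[0, 1/20]`) near its centre.
-/

namespace Pool.Agent.Helper95.CFL

abbrev Pt := ℝ × ℝ

/-- orientation determinant -/
def det (p q r : Pt) : ℝ := (q.1 - p.1) * (r.2 - p.2) - (q.2 - p.2) * (r.1 - p.1)

theorem det_rot (p q r : Pt) : det p q r = det q r p := by unfold det; ring

theorem det_swap (p q r : Pt) : det q p r = - det p q r := by unfold det; ring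

/-- a linear map of order three and determinant one -/
def rot (p : Pt) : Pt := (-p.2, p.1 - p.2)

theorem det_rotmap (p q r : Pt) : det (rot p) (rot q) (rot r) = det p q r := by
  unfold det rot; ring

/-- the groups -/
def gp (a : Fin 3) (s : ℝ) : Pt :=
  match a with
  | 0 => (1 - s ^ 2, s)
  | 1 => (-s, 1 - s - s ^ 2)
  | 2 => (-1 + s + s ^ 2, -1 + s ^ 2)

/-- the centre cluster -/
def cp (r : ℝ) : Pt := (-r, r + r ^ 2)

theorem gp_rot (a : Fin 3) (s : ℝ) : gp (a + 1) s = rot (gp a s) := by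
  fin_cases a
  · show gp 1 s = rot (gp 0 s)
    refine Prod.ext ?_ ?_
    · show -s = -s
      rfl
    · show 1 - s - s ^ 2 = 1 - s ^ 2 - s
      ring
  · show gp 2 s = rot (gp 1 s)
    simp only [gp, rot, Prod.mk.injEq]
    constructor <;> ring
  · show gp 0 s = rot (gp 2 s)
    simp only [gp, rot, Prod.mk.injEq]
    constructor <;> ring

/-- the parameters -/
def Sm (s : ℝ) : Prop := 0 ≤ s ∧ s ≤ 1 / 20

private theorem red (f : Fin 3 → Prop) (h0 : f 0) (hs : ∀ a, f a → f (a + 1)) (a : Fin 3) : f a := by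
  have h1 : f 1 := hs 0 h0
  have h2 : f 2 := hs 1 h1
  fin_cases a
  · exact h0
  · exact h1
  · exact h2

theorem det_A (a : Fin 3) {s t u : ℝ} (h1 : s < t) (h2 : t < u) :
    0 < det (gp a s) (gp a t) (gp a u) := by
  refine red (fun a => 0 < det (gp a s) (gp a t) (gp a u)) ?_ ?_ a
  · have : det (gp 0 s) (gp 0 t) (gp 0 u) = (t - s) * (u - s) * (u - t) := by
      simp only [det, gp]; ring
    rw [this]
    have := sub_pos.2 h1
    have := sub_pos.2 h2
    have := sub_pos.2 (h1.trans h2)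
    positivity
  · intro a h
    show 0 < det (gp (a + 1) s) (gp (a + 1) t) (gp (a + 1) u)
    rw [gp_rot, gp_rot, gp_rot, det_rotmap]
    exact h

theorem det_B (a : Fin 3) {s t u : ℝ} (hs : Sm s) (ht : Sm t) (hu : Sm u) (h1 : s < t) :
    0 < det (gp a s) (gp a t) (gp (a + 1) u) := by
  obtain ⟨hs1, hs2⟩ := hs
  obtain ⟨ht1, ht2⟩ := ht
  obtain ⟨hu1, hu2⟩ := hu
  refine red (fun a => 0 < det (gp a s) (gp a t) (gp (a + 1) u)) ?_ ?_ a
  · have : det (gp 0 s) (gp 0 t) (gp (0 + 1) u) =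
        (t - s) * (1 + u - s ^ 2 - (s + t) * (1 - u - u ^ 2 - s)) := by
      show det (gp 0 s) (gp 0 t) (gp 1 u) = _
      simp only [det, gp]; ring
    show 0 < det (gp 0 s) (gp 0 t) (gp (0 + 1) u)
    rw [this]
    refine mul_pos (sub_pos.2 h1) ?_
    have h2 : (s + t) * (1 - u - u ^ 2 - s) ≤ (1 / 10) * 1 := by
      refine mul_le_mul (by linarith) (by nlinarith) (by nlinarith) (by norm_num)
    nlinarith
  · intro a h
    show 0 < det (gp (a + 1) s) (gp (a + 1) t) (gp (a + 1 + 1) u)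
    rw [gp_rot a, gp_rot a, gp_rot (a + 1), det_rotmap]
    exact h

theorem det_C (a : Fin 3) {s t u : ℝ} (hs : Sm s) (ht : Sm t) (hu : Sm u) (h1 : t < u) :
    0 < det (gp a s) (gp (a + 1) t) (gp (a + 1) u) := by
  obtain ⟨hs1, hs2⟩ := hs
  obtain ⟨ht1, ht2⟩ := ht
  obtain ⟨hu1, hu2⟩ := hu
  refine red (fun a => 0 < det (gp a s) (gp (a + 1) t) (gp (a + 1) u)) ?_ ?_ a
  · have : det (gp 0 s) (gp (0 + 1) t) (gp (0 + 1) u) =
        (u - t) * (1 - s - t - t ^ 2 + (1 + t + u) * (1 + t - s ^ 2)) := by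
      show det (gp 0 s) (gp 1 t) (gp 1 u) = _
      simp only [det, gp]; ring
    show 0 < det (gp 0 s) (gp (0 + 1) t) (gp (0 + 1) u)
    rw [this]
    refine mul_pos (sub_pos.2 h1) ?_
    have h2 : 0 ≤ (1 + t + u) * (1 + t - s ^ 2) := mul_nonneg (by linarith) (by nlinarith)
    nlinarith
  · intro a h
    show 0 < det (gp (a + 1) s) (gp (a + 1 + 1) t) (gp (a + 1 + 1) u)
    rw [gp_rot a, gp_rot (a + 1), gp_rot (a + 1), det_rotmap]
    exact h

theorem det_D (a : Fin 3) {s t u : ℝ} (hs : Sm s) (ht : Sm t) (hu : Sm u) :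
    0 < det (gp a s) (gp (a + 1) t) (gp (a + 1 + 1) u) := by
  obtain ⟨hs1, hs2⟩ := hs
  obtain ⟨ht1, ht2⟩ := ht
  obtain ⟨hu1, hu2⟩ := hu
  refine red (fun a => 0 < det (gp a s) (gp (a + 1) t) (gp (a + 1 + 1) u)) ?_ ?_ a
  · show 0 < det (gp 0 s) (gp 1 t) (gp 2 u)
    simp only [det, gp]
    have e1 : 0 ≤ s * t := by positivity
    have hs3 : s ^ 2 ≤ 1 / 400 := by nlinarith
    have ht3 : t ^ 2 ≤ 1 / 400 := by nlinarith
    have hu3 : u ^ 2 ≤ 1 / 400 := by nlinarith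
    have hs4 : 0 ≤ s ^ 2 := by positivity
    have ht4 : 0 ≤ t ^ 2 := by positivity
    have hu4 : 0 ≤ u ^ 2 := by positivity
    -- first product: `(-t - 1 + s²) (-1 + u² - s)`, second: `(1 - t - t² - s) (-2 + u + u² + s²)`
    have p1 : (9 / 10 : ℝ) * (9 / 10) ≤ (1 + t - s ^ 2) * (1 - u ^ 2 + s) :=
      mul_le_mul (by linarith) (by linarith) (by norm_num) (by linarith)
    have p2 : (8 / 10 : ℝ) * (18 / 10) ≤ (1 - t - t ^ 2 - s) * (2 - u - u ^ 2 - s ^ 2) :=
      mul_le_mul (by linarith) (by linarith) (by norm_num) (by linarith)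
    nlinarith
  · intro a h
    show 0 < det (gp (a + 1) s) (gp (a + 1 + 1) t) (gp (a + 1 + 1 + 1) u)
    rw [gp_rot a, gp_rot (a + 1), gp_rot (a + 1 + 1), det_rotmap]
    exact h

/-- inverse of `rot` -/
def rti (p : Pt) : Pt := (p.2 - p.1, -p.1)

theorem rot_rti (p : Pt) : rot (rti p) = p := by
  simp only [rot, rti]
  ext
  · simp
  · simp

/-- small points: both coordinates and their difference are small -/
def Smc (c : Pt) : Prop := |c.1| ≤ 1 / 8 ∧ |c.2| ≤ 1 / 8 ∧ |c.1 - c.2| ≤ 1 / 8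

theorem smc_rti {c : Pt} (h : Smc c) : Smc (rti c) := by
  obtain ⟨h1, h2, h3⟩ := h
  refine ⟨?_, ?_, ?_⟩
  · show |c.2 - c.1| ≤ 1 / 8
    rw [abs_sub_comm]
    exact h3
  · show |-c.1| ≤ 1 / 8
    rw [abs_neg]
    exact h1
  · show |c.2 - c.1 - -c.1| ≤ 1 / 8
    rw [sub_neg_eq_add, sub_add_cancel]
    exact h2

theorem det_E (a : Fin 3) {s t : ℝ} {c : Pt} (hs : Sm s) (ht : Sm t) (hc : Smc c) (h1 : s < t) :
    0 < det c (gp a s) (gp a t) := by
  obtain ⟨hs1, hs2⟩ := hs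
  obtain ⟨ht1, ht2⟩ := ht
  refine red (fun a => ∀ c, Smc c → 0 < det c (gp a s) (gp a t)) ?_ ?_ a c hc
  · intro c hc
    obtain ⟨hc1, hc2, -⟩ := hc
    rw [abs_le] at hc1 hc2
    have : det c (gp 0 s) (gp 0 t) = (t - s) * (1 - s ^ 2 - c.1 - (s + t) * (c.2 - s)) := by
      simp only [det, gp]; ring
    rw [this]
    refine mul_pos (sub_pos.2 h1) ?_
    have h2 : (s + t) * (c.2 - s) ≤ (1 / 10) * (1 / 8) := by
      have : (s + t) * (c.2 - s) ≤ (s + t) * (1 / 8) :=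
        mul_le_mul_of_nonneg_left (by linarith) (by linarith)
      nlinarith
    nlinarith
  · intro a h c hc
    show 0 < det c (gp (a + 1) s) (gp (a + 1) t)
    rw [gp_rot, gp_rot, ← rot_rti c, det_rotmap]
    exact h _ (smc_rti hc)

theorem det_F (a : Fin 3) {s t : ℝ} {c : Pt} (hs : Sm s) (ht : Sm t) (hc : Smc c) :
    0 < det c (gp a s) (gp (a + 1) t) := by
  obtain ⟨hs1, hs2⟩ := hs
  obtain ⟨ht1, ht2⟩ := ht
  refine red (fun a => ∀ c, Smc c → 0 < det c (gp a s) (gp (a + 1) t)) ?_ ?_ a c hc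
  · intro c hc
    obtain ⟨hc1, hc2, -⟩ := hc
    rw [abs_le] at hc1 hc2
    show 0 < det c (gp 0 s) (gp 1 t)
    simp only [det, gp]
    have hs3 : s ^ 2 ≤ 1 / 400 := by nlinarith
    have ht3 : t ^ 2 ≤ 1 / 400 := by nlinarith
    have hs4 : 0 ≤ s ^ 2 := by positivity
    have ht4 : 0 ≤ t ^ 2 := by positivity
    have p1 : (8 / 10 : ℝ) * (8 / 10) ≤ (1 - s ^ 2 - c.1) * (1 - t - t ^ 2 - c.2) :=
      mul_le_mul (by linarith) (by linarith) (by norm_num) (by linarith)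
    have p2 : |(s - c.2) * (-t - c.1)| ≤ (2 / 10) * (2 / 10) := by
      rw [abs_mul]
      refine mul_le_mul ?_ ?_ (abs_nonneg _) (by norm_num)
      · rw [abs_le]; constructor <;> linarith
      · rw [abs_le]; constructor <;> linarith
    rw [abs_le] at p2
    linarith [p2.2]
  · intro a h c hc
    show 0 < det c (gp (a + 1) s) (gp (a + 1 + 1) t)
    rw [gp_rot a, gp_rot (a + 1), ← rot_rti c, det_rotmap]
    exact h _ (smc_rti hc)

theorem smc_cp {r : ℝ} (hr : Sm r) : Smc (cp r) := by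
  obtain ⟨h1, h2⟩ := hr
  have h3 : r ^ 2 ≤ 1 / 400 := by nlinarith
  have h4 : 0 ≤ r ^ 2 := by positivity
  refine ⟨?_, ?_, ?_⟩
  · show |-r| ≤ 1 / 8
    rw [abs_le]; constructor <;> linarith
  · show |r + r ^ 2| ≤ 1 / 8
    rw [abs_le]; constructor <;> linarith
  · show |-r - (r + r ^ 2)| ≤ 1 / 8
    rw [abs_le]; constructor <;> linarith

private theorem cp_fac (r r' : ℝ) (v : Pt) : det (cp r) (cp r') v =
    (r' - r) * (-(v.2 - (r + r ^ 2)) - (1 + r + r') * (v.1 + r)) := by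
  simp only [det, cp]; ring

private theorem sq_sm {s : ℝ} (hs : Sm s) : 0 ≤ s ^ 2 ∧ s ^ 2 ≤ 1 / 400 := by
  obtain ⟨h1, h2⟩ := hs
  exact ⟨by positivity, by nlinarith⟩

theorem det_G0 {r r' s : ℝ} (hr : Sm r) (hr' : Sm r') (hs : Sm s) (h : r < r') :
    0 < det (cp r') (cp r) (gp 0 s) := by
  obtain ⟨r3, r4⟩ := sq_sm hr
  obtain ⟨s3, s4⟩ := sq_sm hs
  obtain ⟨r1, r2⟩ := hr
  obtain ⟨r1', r2'⟩ := hr'
  obtain ⟨s1, s2⟩ := hs
  rw [det_swap, cp_fac]
  simp only [gp]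
  have p : (9 / 10 : ℝ) ≤ (1 + r + r') * (1 - s ^ 2 + r) := by nlinarith
  have : 0 < (r' - r) * ((s - (r + r ^ 2)) + (1 + r + r') * (1 - s ^ 2 + r)) :=
    mul_pos (sub_pos.2 h) (by linarith)
  linarith

theorem det_G1 {r r' s : ℝ} (hr : Sm r) (hr' : Sm r') (hs : Sm s) (h : r < r') :
    0 < det (cp r') (cp r) (gp 1 s) := by
  obtain ⟨r3, r4⟩ := sq_sm hr
  obtain ⟨s3, s4⟩ := sq_sm hs
  obtain ⟨r1, r2⟩ := hr
  obtain ⟨r1', r2'⟩ := hr'
  obtain ⟨s1, s2⟩ := hs
  rw [det_swap, cp_fac]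
  simp only [gp]
  have p : -(1 / 10 : ℝ) ≤ (1 + r + r') * (-s + r) := by nlinarith
  have : 0 < (r' - r) * ((1 - s - s ^ 2 - (r + r ^ 2)) + (1 + r + r') * (-s + r)) :=
    mul_pos (sub_pos.2 h) (by linarith)
  linarith

theorem det_G2 {r r' s : ℝ} (hr : Sm r) (hr' : Sm r') (hs : Sm s) (h : r < r') :
    0 < det (cp r) (cp r') (gp 2 s) := by
  obtain ⟨r3, r4⟩ := sq_sm hr
  obtain ⟨s3, s4⟩ := sq_sm hs
  obtain ⟨r1, r2⟩ := hr
  obtain ⟨r1', r2'⟩ := hr'
  obtain ⟨s1, s2⟩ := hs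
  rw [cp_fac]
  simp only [gp]
  have p : (1 + r + r') * (-1 + s + s ^ 2 + r) ≤ 0 := by
    refine mul_nonpos_of_nonneg_of_nonpos (by linarith) (by linarith)
  exact mul_pos (sub_pos.2 h) (by linarith)

theorem det_cp {r r' r'' : ℝ} (h1 : r < r') (h2 : r' < r'') :
    det (cp r) (cp r') (cp r'') ≠ 0 := by
  have : det (cp r) (cp r') (cp r'') = -((r' - r) * (r'' - r) * (r'' - r')) := by
    simp only [det, cp]; ring
  rw [this]
  have := sub_pos.2 h1
  have := sub_pos.2 h2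
  have := sub_pos.2 (h1.trans h2)
  have : 0 < (r' - r) * (r'' - r) * (r'' - r') := by positivity
  linarith

/-- four points in convex position: the diagonals meet -/
theorem diag_meet {A B C D : Pt} (h1 : 0 < det A B C) (h2 : 0 < det A B D) (h3 : 0 < det A C D)
    (h4 : 0 < det B C D) :
    (∃ x, x ∈ segment ℝ A C ∧ x ∈ segment ℝ B D) ∧ A ≠ B ∧ A ≠ C ∧ A ≠ D ∧ B ≠ C ∧ B ≠ D ∧
      C ≠ D := by
  have hT : det A B C + det A C D = det A B D + det B C D := by unfold det; ring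
  have hTpos : 0 < det A B C + det A C D := by linarith
  set T := det A B C + det A C D with hTdef
  refine ⟨⟨(A.1 + (det A B D / T) * (C.1 - A.1), A.2 + (det A B D / T) * (C.2 - A.2)), ?_, ?_⟩,
    ?_⟩
  · rw [segment_eq_image']
    refine ⟨det A B D / T, ⟨by positivity, ?_⟩, ?_⟩
    · rw [div_le_one hTpos]; linarith
    · ext
      · simp
      · simp
  · rw [segment_eq_image']
    refine ⟨det A B C / T, ⟨by positivity, ?_⟩, ?_⟩
    · rw [div_le_one hTpos]; linarith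
    · have e1 : T * (B.1 - A.1) + det A B C * (D.1 - B.1) - det A B D * (C.1 - A.1) = 0 := by
        rw [hTdef]; unfold det; ring
      have e2 : T * (B.2 - A.2) + det A B C * (D.2 - B.2) - det A B D * (C.2 - A.2) = 0 := by
        rw [hTdef]; unfold det; ring
      ext
      · show B.1 + det A B C / T * (D.1 - B.1) = A.1 + det A B D / T * (C.1 - A.1)
        field_simp
        linarith
      · show B.2 + det A B C / T * (D.2 - B.2) = A.2 + det A B D / T * (C.2 - A.2)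
        field_simp
        linarith
  · refine ⟨?_, ?_, ?_, ?_, ?_, ?_⟩
    · rintro rfl; unfold det at h1; nlinarith
    · rintro rfl; unfold det at h1; nlinarith
    · rintro rfl; unfold det at h2; nlinarith
    · rintro rfl; unfold det at h1; nlinarith
    · rintro rfl; unfold det at h2; nlinarith
    · rintro rfl; unfold det at h3; nlinarith

end Pool.Agent.Helper95.CFL
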