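import Mathlib

/-!
# Laminar families of long intervals

`nn F u v` is the number of intervals of the family `F` inside `[u, v]`. If the family is laminar
and all its intervals have length at least `l ≥ 2`, then `nn F u v ≤ v - u + 1 - l`.
-/

namespace Pool.Agent.Helper95.CFL

open Finset

/-- number of members of `F` inside `[u, v]` -/
def nn (F : Finset (ℕ × ℕ)) (u v : ℕ) : ℕ := (F.filter fun p => u ≤ p.1 ∧ p.2 ≤ v).card

/-- a family of long intervals that do not interleave -/
structure Lam (l : ℕ) (F : Finset (ℕ × ℕ)) : Prop where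
  len : ∀ p ∈ F, p.1 + l ≤ p.2
  lam : ∀ p ∈ F, ∀ q ∈ F, ¬ (p.1 < q.1 ∧ q.1 < p.2 ∧ p.2 < q.2)

theorem nn_split {F : Finset (ℕ × ℕ)} {u v : ℕ} (c : ℕ)
    (h : ∀ p ∈ F, u ≤ p.1 → p.2 ≤ v → p.2 ≤ c ∨ c ≤ p.1) :
    nn F u v ≤ nn F u c + nn F c v := by
  unfold nn
  refine (card_le_card ?_).trans (card_union_le _ _)
  intro p hp
  rw [mem_filter] at hp
  rw [mem_union, mem_filter, mem_filter]
  rcases h p hp.1 hp.2.1 hp.2.2 with h1 | h1
  · exact Or.inl ⟨hp.1, hp.2.1, h1⟩
  · exact Or.inr ⟨hp.1, h1, hp.2.2⟩

private theorem nn_aux {l : ℕ} {F : Finset (ℕ × ℕ)} (hF : Lam l F) (hl : 2 ≤ l) :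
    ∀ n u v, v - u ≤ n → nn F u v ≤ v + 1 - u - l := by
  intro n
  induction n using Nat.strong_induction_on with
  | _ n ih =>
    intro u v huv
    -- short case
    rcases Nat.lt_or_ge v (u + l) with hs | hs
    · have : nn F u v = 0 := by
        unfold nn
        rw [card_eq_zero, filter_eq_empty_iff]
        intro p hp h
        have := hF.len p hp
        omega
      omega
    have hn : 0 < n := by omega
    -- the other members
    set S := (F.filter fun p => u ≤ p.1 ∧ p.2 ≤ v).erase (u, v) with hS
    have hcard : nn F u v ≤ S.card + 1 := by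
      unfold nn
      have := pred_card_le_card_erase (s := F.filter fun p => u ≤ p.1 ∧ p.2 ≤ v) (a := (u, v))
      rw [← hS] at this
      omega
    have hmem : ∀ p, p ∈ S ↔ p ≠ (u, v) ∧ p ∈ F ∧ u ≤ p.1 ∧ p.2 ≤ v := by
      intro p
      rw [hS, mem_erase, mem_filter]
    suffices hsuf : S.card ≤ v - u - l by omega
    by_cases hA : ∃ b, (u, b) ∈ S
    · by_cases hB : ∃ a, (a, v) ∈ S
      · -- choose the largest b
        obtain ⟨b0, hb0⟩ := hA
        obtain ⟨b, hb, hbmax⟩ := exists_max_image (S.filter fun p => p.1 = u) (fun p => p.2)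
          ⟨(u, b0), by rw [mem_filter]; exact ⟨hb0, rfl⟩⟩
        obtain ⟨a, ha⟩ := hB
        rw [mem_filter, hmem] at hb
        obtain ⟨⟨hb1, hb2, hb3, hb4⟩, hb5⟩ := hb
        have hbv : b.2 ≠ v := fun h => hb1 (Prod.ext hb5 h)
        rw [hmem] at ha
        have hau : a ≠ u := fun h => ha.1 (by rw [h])
        have hlb := hF.len b hb2
        have hla := hF.len (a, v) ha.2.1
        have hla' : a + l ≤ v := hla
        have hau' : u ≤ a := ha.2.2.1
        have hba : b.2 ≤ a := by
          by_contra hcon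
          exact hF.lam b hb2 (a, v) ha.2.1
            ⟨by show b.1 < a; omega, by show a < b.2; omega, by show b.2 < v; omega⟩
        have hsub : S ⊆ (F.filter fun p => u ≤ p.1 ∧ p.2 ≤ b.2) ∪
            (F.filter fun p => b.2 ≤ p.1 ∧ p.2 ≤ v) := by
          intro p hp
          have hp' := (hmem p).1 hp
          rw [mem_union, mem_filter, mem_filter]
          rcases Nat.lt_or_ge p.1 b.2 with h1 | h1
          · left
            refine ⟨hp'.2.1, hp'.2.2.1, ?_⟩
            by_contra hcon
            rcases Nat.eq_or_lt_of_le hp'.2.2.1 with h2 | h2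
            · have := hbmax p (by rw [mem_filter]; exact ⟨hp, h2.symm⟩)
              omega
            · exact hF.lam b hb2 p hp'.2.1 ⟨by omega, h1, by omega⟩
          · right
            exact ⟨hp'.2.1, h1, hp'.2.2.2⟩
        have h1 := ih (b.2 - u) (by omega) u b.2 le_rfl
        have h2 := ih (v - b.2) (by omega) b.2 v le_rfl
        have h3 : S.card ≤ nn F u b.2 + nn F b.2 v := (card_le_card hsub).trans (card_union_le _ _)
        omega
      · -- no member ends at v
        have hsub : S ⊆ F.filter fun p => u ≤ p.1 ∧ p.2 ≤ v - 1 := by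
          intro p hp
          have hp' := (hmem p).1 hp
          rw [mem_filter]
          refine ⟨hp'.2.1, hp'.2.2.1, ?_⟩
          have : p.2 ≠ v := by
            intro h
            exact hB ⟨p.1, by rw [← h]; exact hp⟩
          have := hp'.2.2.2
          omega
        have h1 := ih (v - 1 - u) (by omega) u (v - 1) le_rfl
        have h3 : S.card ≤ nn F u (v - 1) := card_le_card hsub
        omega
    · -- no member starts at u
      have hsub : S ⊆ F.filter fun p => u + 1 ≤ p.1 ∧ p.2 ≤ v := by
        intro p hp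
        have hp' := (hmem p).1 hp
        rw [mem_filter]
        refine ⟨hp'.2.1, ?_, hp'.2.2.2⟩
        have : p.1 ≠ u := by
          intro h
          exact hA ⟨p.2, by rw [← h]; exact hp⟩
        have := hp'.2.2.1
        omega
      have h1 := ih (v - (u + 1)) (by omega) (u + 1) v le_rfl
      have h3 : S.card ≤ nn F (u + 1) v := card_le_card hsub
      omega

theorem nn_le {l : ℕ} {F : Finset (ℕ × ℕ)} (hF : Lam l F) (hl : 2 ≤ l) (u v : ℕ) :
    nn F u v ≤ v + 1 - u - l :=
  nn_aux hF hl (v - u) u v le_rfl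

end Pool.Agent.Helper95.CFL
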