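import Pool.Agent.Helper95.CFL.Geo
import Pool.Agent.Helper95.CFL.Cls

/-!
# The point set
-/

namespace Pool.Agent.Helper95.CFL

open Finset

/-- parameter of point `i` of a group -/
noncomputable def sg (L i : ℕ) : ℝ := i / (20 * L)

theorem sg_sm {L i : ℕ} (h : i < L) : Sm (sg L i) := by
  have hL : (0 : ℝ) < 20 * L := by
    have : (0 : ℝ) < L := by exact_mod_cast (by omega : 0 < L)
    linarith
  have hi : (i : ℝ) ≤ L := by exact_mod_cast h.le
  refine ⟨by unfold sg; positivity, ?_⟩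
  unfold sg
  rw [div_le_iff₀ hL]
  linarith

theorem sg_lt {L i j : ℕ} (hi : i < j) (hj : j < L) : sg L i < sg L j := by
  have hL : (0 : ℝ) < 20 * L := by
    have : (0 : ℝ) < L := by exact_mod_cast (by omega : 0 < L)
    linarith
  have : (i : ℝ) < j := by exact_mod_cast hi
  unfold sg
  gcongr

/-- the points -/
noncomputable def pt (L M x : ℕ) : Pt :=
  if x < L then gp 0 (sg L x)
  else if x < 2 * L then gp 1 (sg L (x - L))
  else if x < 3 * L then gp 2 (sg L (x - 2 * L))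
  else cp (sg M (x - 3 * L))

theorem pt_0 {L M x : ℕ} (h : x < L) : pt L M x = gp 0 (sg L x) := by
  unfold pt; rw [if_pos h]

theorem pt_1 {L M x : ℕ} (h : x < L) : pt L M (L + x) = gp 1 (sg L x) := by
  unfold pt
  rw [if_neg (by omega), if_pos (by omega), Nat.add_sub_cancel_left]

theorem pt_2 {L M x : ℕ} (h : x < L) : pt L M (2 * L + x) = gp 2 (sg L x) := by
  unfold pt
  rw [if_neg (by omega), if_neg (by omega), if_pos (by omega), Nat.add_sub_cancel_left]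

theorem pt_c {L M x : ℕ} : pt L M (3 * L + x) = cp (sg M x) := by
  unfold pt
  rw [if_neg (by omega), if_neg (by omega), if_neg (by omega), Nat.add_sub_cancel_left]

private theorem cases_pt (L M x : ℕ) (h : x < 3 * L + M) :
    (∃ i, i < L ∧ x = i) ∨ (∃ i, i < L ∧ x = L + i) ∨ (∃ i, i < L ∧ x = 2 * L + i) ∨
      (∃ i, i < M ∧ x = 3 * L + i) := by
  rcases Nat.lt_or_ge x L with h1 | h1
  · exact Or.inl ⟨x, h1, rfl⟩
  rcases Nat.lt_or_ge x (2 * L) with h2 | h2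
  · exact Or.inr (Or.inl ⟨x - L, by omega, by omega⟩)
  rcases Nat.lt_or_ge x (3 * L) with h3 | h3
  · exact Or.inr (Or.inr (Or.inl ⟨x - 2 * L, by omega, by omega⟩))
  · exact Or.inr (Or.inr (Or.inr ⟨x - 3 * L, by omega, by omega⟩))

theorem det_ne {L M x y z : ℕ} (hxy : x < y) (hyz : y < z) (hz : z < 3 * L + M) :
    det (pt L M x) (pt L M y) (pt L M z) ≠ 0 := by
  rcases cases_pt L M x (by omega) with ⟨i, hi, rfl⟩ | ⟨i, hi, rfl⟩ | ⟨i, hi, rfl⟩ | ⟨i, hi, rfl⟩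
  · rcases cases_pt L M y (by omega) with ⟨j, hj, rfl⟩ | ⟨j, hj, rfl⟩ | ⟨j, hj, rfl⟩ | ⟨j, hj, rfl⟩
    · rcases cases_pt L M z hz with ⟨k, hk, rfl⟩ | ⟨k, hk, rfl⟩ | ⟨k, hk, rfl⟩ | ⟨k, hk, rfl⟩
      · rw [pt_0 hi, pt_0 hj, pt_0 hk]
        exact (det_A 0 (sg_lt hxy hj) (sg_lt hyz hk)).ne'
      · rw [pt_0 hi, pt_0 hj, pt_1 hk]
        exact (det_B 0 (sg_sm hi) (sg_sm hj) (sg_sm hk) (sg_lt hxy hj)).ne'
      · rw [pt_0 hi, pt_0 hj, pt_2 hk, det_rot, det_rot]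
        exact (det_C 2 (sg_sm hk) (sg_sm hi) (sg_sm hj) (sg_lt hxy hj)).ne'
      · rw [pt_0 hi, pt_0 hj, pt_c, det_rot, det_rot]
        exact (det_E 0 (sg_sm hi) (sg_sm hj) (smc_cp (sg_sm hk)) (sg_lt hxy hj)).ne'
    · rcases cases_pt L M z hz with ⟨k, hk, rfl⟩ | ⟨k, hk, rfl⟩ | ⟨k, hk, rfl⟩ | ⟨k, hk, rfl⟩
      · omega
      · rw [pt_0 hi, pt_1 hj, pt_1 hk]
        exact (det_C 0 (sg_sm hi) (sg_sm hj) (sg_sm hk) (sg_lt (by omega) hk)).ne'
      · rw [pt_0 hi, pt_1 hj, pt_2 hk]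
        exact (det_D 0 (sg_sm hi) (sg_sm hj) (sg_sm hk)).ne'
      · rw [pt_0 hi, pt_1 hj, pt_c, det_rot, det_rot]
        exact (det_F 0 (sg_sm hi) (sg_sm hj) (smc_cp (sg_sm hk))).ne'
    · rcases cases_pt L M z hz with ⟨k, hk, rfl⟩ | ⟨k, hk, rfl⟩ | ⟨k, hk, rfl⟩ | ⟨k, hk, rfl⟩
      · omega
      · omega
      · rw [pt_0 hi, pt_2 hj, pt_2 hk, det_rot]
        exact (det_B 2 (sg_sm hj) (sg_sm hk) (sg_sm hi) (sg_lt (by omega) hk)).ne'
      · rw [pt_0 hi, pt_2 hj, pt_c, det_swap, neg_ne_zero, det_rot, det_rot]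
        exact (det_F 2 (sg_sm hj) (sg_sm hi) (smc_cp (sg_sm hk))).ne'
    · rcases cases_pt L M z hz with ⟨k, hk, rfl⟩ | ⟨k, hk, rfl⟩ | ⟨k, hk, rfl⟩ | ⟨k, hk, rfl⟩
      · omega
      · omega
      · omega
      · rw [pt_0 hi, pt_c, pt_c, det_rot, det_swap, neg_ne_zero]
        exact (det_G0 (sg_sm hj) (sg_sm hk) (sg_sm hi) (sg_lt (by omega) hk)).ne'
  · rcases cases_pt L M y (by omega) with ⟨j, hj, rfl⟩ | ⟨j, hj, rfl⟩ | ⟨j, hj, rfl⟩ | ⟨j, hj, rfl⟩
    · omega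
    · rcases cases_pt L M z hz with ⟨k, hk, rfl⟩ | ⟨k, hk, rfl⟩ | ⟨k, hk, rfl⟩ | ⟨k, hk, rfl⟩
      · omega
      · rw [pt_1 hi, pt_1 hj, pt_1 hk]
        exact (det_A 1 (sg_lt (by omega) hj) (sg_lt (by omega) hk)).ne'
      · rw [pt_1 hi, pt_1 hj, pt_2 hk]
        exact (det_B 1 (sg_sm hi) (sg_sm hj) (sg_sm hk) (sg_lt (by omega) hj)).ne'
      · rw [pt_1 hi, pt_1 hj, pt_c, det_rot, det_rot]
        exact (det_E 1 (sg_sm hi) (sg_sm hj) (smc_cp (sg_sm hk)) (sg_lt (by omega) hj)).ne'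
    · rcases cases_pt L M z hz with ⟨k, hk, rfl⟩ | ⟨k, hk, rfl⟩ | ⟨k, hk, rfl⟩ | ⟨k, hk, rfl⟩
      · omega
      · omega
      · rw [pt_1 hi, pt_2 hj, pt_2 hk]
        exact (det_C 1 (sg_sm hi) (sg_sm hj) (sg_sm hk) (sg_lt (by omega) hk)).ne'
      · rw [pt_1 hi, pt_2 hj, pt_c, det_rot, det_rot]
        exact (det_F 1 (sg_sm hi) (sg_sm hj) (smc_cp (sg_sm hk))).ne'
    · rcases cases_pt L M z hz with ⟨k, hk, rfl⟩ | ⟨k, hk, rfl⟩ | ⟨k, hk, rfl⟩ | ⟨k, hk, rfl⟩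
      · omega
      · omega
      · omega
      · rw [pt_1 hi, pt_c, pt_c, det_rot, det_swap, neg_ne_zero]
        exact (det_G1 (sg_sm hj) (sg_sm hk) (sg_sm hi) (sg_lt (by omega) hk)).ne'
  · rcases cases_pt L M y (by omega) with ⟨j, hj, rfl⟩ | ⟨j, hj, rfl⟩ | ⟨j, hj, rfl⟩ | ⟨j, hj, rfl⟩
    · omega
    · omega
    · rcases cases_pt L M z hz with ⟨k, hk, rfl⟩ | ⟨k, hk, rfl⟩ | ⟨k, hk, rfl⟩ | ⟨k, hk, rfl⟩
      · omega
      · omega
      · rw [pt_2 hi, pt_2 hj, pt_2 hk]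
        exact (det_A 2 (sg_lt (by omega) hj) (sg_lt (by omega) hk)).ne'
      · rw [pt_2 hi, pt_2 hj, pt_c, det_rot, det_rot]
        exact (det_E 2 (sg_sm hi) (sg_sm hj) (smc_cp (sg_sm hk)) (sg_lt (by omega) hj)).ne'
    · rcases cases_pt L M z hz with ⟨k, hk, rfl⟩ | ⟨k, hk, rfl⟩ | ⟨k, hk, rfl⟩ | ⟨k, hk, rfl⟩
      · omega
      · omega
      · omega
      · rw [pt_2 hi, pt_c, pt_c, det_rot]
        exact (det_G2 (sg_sm hj) (sg_sm hk) (sg_sm hi) (sg_lt (by omega) hk)).ne'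
  · obtain ⟨j, hj, rfl⟩ : ∃ j, j < M ∧ y = 3 * L + j := ⟨y - 3 * L, by omega, by omega⟩
    obtain ⟨k, hk, rfl⟩ : ∃ k, k < M ∧ z = 3 * L + k := ⟨z - 3 * L, by omega, by omega⟩
    rw [pt_c, pt_c, pt_c]
    exact det_cp (sg_lt (by omega) hj) (sg_lt (by omega) hk)

theorem det_ne' {L M x y z : ℕ} (hx : x < 3 * L + M) (hy : y < 3 * L + M) (hz : z < 3 * L + M)
    (hxy : x ≠ y) (hxz : x ≠ z) (hyz : y ≠ z) :
    det (pt L M x) (pt L M y) (pt L M z) ≠ 0 := by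
  rcases Nat.lt_or_gt_of_ne hxy with h1 | h1
  · rcases Nat.lt_or_gt_of_ne hyz with h2 | h2
    · exact det_ne h1 h2 hz
    · rcases Nat.lt_or_gt_of_ne hxz with h3 | h3
      · -- x < z < y
        have := det_ne (M := M) h3 h2 hy
        intro h0
        apply this
        have e : det (pt L M x) (pt L M z) (pt L M y) = - det (pt L M x) (pt L M y) (pt L M z) := by
          unfold det; ring
        rw [e, h0, neg_zero]
      · -- z < x < y
        have := det_ne (M := M) h3 h1 hy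
        rw [det_rot] at this
        exact this
  · rcases Nat.lt_or_gt_of_ne hyz with h2 | h2
    · rcases Nat.lt_or_gt_of_ne hxz with h3 | h3
      · -- y < x < z
        rw [det_swap, neg_ne_zero]
        exact det_ne h1 h3 hz
      · -- y < z < x
        rw [det_rot]
        exact det_ne h2 h3 hx
    · -- z < y < x
      have := det_ne (M := M) h2 h1 hx
      intro h0
      apply this
      have e : det (pt L M z) (pt L M y) (pt L M x) = - det (pt L M x) (pt L M y) (pt L M z) := by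
        unfold det; ring
      rw [e, h0, neg_zero]

theorem pt_inj {L M x y : ℕ} (hL : 1 ≤ L) (hx : x < 3 * L + M) (hy : y < 3 * L + M)
    (h : pt L M x = pt L M y) : x = y := by
  by_contra hne
  obtain ⟨z, hz, hzx, hzy⟩ : ∃ z, z < 3 * L + M ∧ z ≠ x ∧ z ≠ y := by
    by_contra hcon
    push Not at hcon
    have h0 := hcon 0 (by omega)
    have h1 := hcon 1 (by omega)
    have h2 := hcon 2 (by omega)
    omega
  have := det_ne' hx hy hz hne (Ne.symm hzx) (Ne.symm hzy)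
  rw [h] at this
  apply this
  unfold det
  ring

/-- point `x` of the frame of the groups `a, a + 1` -/
noncomputable def fr (L : ℕ) (a : Fin 3) (x : ℕ) : Pt :=
  if x < L then gp a (sg L x) else gp (a + 1) (sg L (x - L))

theorem fr_0 {L : ℕ} {a : Fin 3} {x : ℕ} (h : x < L) : fr L a x = gp a (sg L x) := by
  unfold fr; rw [if_pos h]

theorem fr_1 {L : ℕ} {a : Fin 3} {x : ℕ} : fr L a (L + x) = gp (a + 1) (sg L x) := by
  unfold fr; rw [if_neg (by omega), Nat.add_sub_cancel_left]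

theorem fr_pos {L : ℕ} (a : Fin 3) {x y z : ℕ} (hxy : x < y) (hyz : y < z) (hz : z < 2 * L) :
    0 < det (fr L a x) (fr L a y) (fr L a z) := by
  rcases Nat.lt_or_ge z L with h1 | h1
  · rw [fr_0 h1, fr_0 (by omega), fr_0 (by omega)]
    exact det_A a (sg_lt hxy (by omega)) (sg_lt hyz h1)
  obtain ⟨k, rfl⟩ := Nat.exists_eq_add_of_le h1
  rcases Nat.lt_or_ge y L with h2 | h2
  · rw [fr_1, fr_0 h2, fr_0 (by omega)]
    exact det_B a (sg_sm (by omega)) (sg_sm h2) (sg_sm (by omega)) (sg_lt hxy h2)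
  obtain ⟨j, rfl⟩ := Nat.exists_eq_add_of_le h2
  rcases Nat.lt_or_ge x L with h3 | h3
  · rw [fr_1, fr_1, fr_0 h3]
    exact det_C a (sg_sm h3) (sg_sm (by omega)) (sg_sm (by omega)) (sg_lt (by omega) (by omega))
  obtain ⟨i, rfl⟩ := Nat.exists_eq_add_of_le h3
  rw [fr_1, fr_1, fr_1]
  exact det_A (a + 1) (sg_lt (by omega) (by omega)) (sg_lt (by omega) (by omega))

theorem fr_c {L : ℕ} (a : Fin 3) {x y : ℕ} {c : Pt} (hc : Smc c) (hxy : x < y) (hy : y < 2 * L) :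
    0 < det c (fr L a x) (fr L a y) := by
  rcases Nat.lt_or_ge y L with h1 | h1
  · rw [fr_0 h1, fr_0 (by omega)]
    exact det_E a (sg_sm (by omega)) (sg_sm h1) hc (sg_lt hxy h1)
  obtain ⟨k, rfl⟩ := Nat.exists_eq_add_of_le h1
  rcases Nat.lt_or_ge x L with h2 | h2
  · rw [fr_1, fr_0 h2]
    exact det_F a (sg_sm h2) (sg_sm (by omega)) hc
  obtain ⟨j, rfl⟩ := Nat.exists_eq_add_of_le h2
  rw [fr_1, fr_1]
  exact det_E (a + 1) (sg_sm (by omega)) (sg_sm (by omega)) hc (sg_lt (by omega) (by omega))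

/-- the point set -/
noncomputable def PP (L M : ℕ) : Finset Pt := (range (3 * L + M)).image (pt L M)

theorem card_PP {L M : ℕ} (hL : 1 ≤ L) : (PP L M).card = 3 * L + M := by
  unfold PP
  rw [card_image_of_injOn, card_range]
  intro x hx y hy h
  rw [mem_coe, mem_range] at hx hy
  exact pt_inj hL hx hy h

theorem gp_mem {L M : ℕ} (a : Fin 3) {i : ℕ} (hi : i < L) : gp a (sg L i) ∈ PP L M := by
  unfold PP
  rw [mem_image]
  fin_cases a
  · exact ⟨i, by rw [mem_range]; omega, pt_0 hi⟩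
  · exact ⟨L + i, by rw [mem_range]; omega, pt_1 hi⟩
  · exact ⟨2 * L + i, by rw [mem_range]; omega, pt_2 hi⟩

theorem cp_mem {L M : ℕ} {i : ℕ} (hi : i < M) : cp (sg M i) ∈ PP L M := by
  unfold PP
  rw [mem_image]
  exact ⟨3 * L + i, by rw [mem_range]; omega, pt_c⟩

theorem fr_mem {L M : ℕ} (a : Fin 3) {x : ℕ} (hx : x < 2 * L) : fr L a x ∈ PP L M := by
  rcases Nat.lt_or_ge x L with h | h
  · rw [fr_0 h]; exact gp_mem a h
  · obtain ⟨k, rfl⟩ := Nat.exists_eq_add_of_le h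
    rw [fr_1]; exact gp_mem _ (by omega)

theorem gen_pos {L M : ℕ} (p q r : Pt) (hp : p ∈ PP L M) (hq : q ∈ PP L M) (hr : r ∈ PP L M)
    (hpq : p ≠ q) (hpr : p ≠ r) (hqr : q ≠ r) : det p q r ≠ 0 := by
  unfold PP at hp hq hr
  rw [mem_image] at hp hq hr
  obtain ⟨x, hx, rfl⟩ := hp
  obtain ⟨y, hy, rfl⟩ := hq
  obtain ⟨z, hz, rfl⟩ := hr
  rw [mem_range] at hx hy hz
  exact det_ne' hx hy hz (fun h => hpq (by rw [h])) (fun h => hpr (by rw [h]))
    (fun h => hqr (by rw [h]))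

/-- A crossing-free colouring of the point set gives an abstract colouring. -/
theorem exists_col {κ : Type*} (L M : ℕ) (col : Pt → Pt → κ)
    (hcol : ∀ A ∈ PP L M, ∀ B ∈ PP L M, ∀ C ∈ PP L M, ∀ D ∈ PP L M,
      0 < det A B C → 0 < det A B D → 0 < det A C D → 0 < det B C D → col A C ≠ col B D)
    (hsymm : ∀ p q, col p q = col q p) : Nonempty (Col κ L M) := by
  refine ⟨⟨fun a x y => col (fr L a x) (fr L a y), fun a k c => col (gp a (sg L k))
    (cp (sg M (if a = 2 then M - 1 - c else c))), ?_, ?_, ?_, ?_, ?_, ?_⟩⟩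
  · intro a x x' y y' h1 h2 h3 h4
    exact hcol _ (fr_mem a (by omega)) _ (fr_mem a (by omega)) _ (fr_mem a (by omega)) _
      (fr_mem a h4) (fr_pos a h1 h2 (by omega)) (fr_pos a h1 (by omega) h4)
      (fr_pos a (by omega) h3 h4) (fr_pos a h2 h3 h4)
  · intro a x y h1 h2
    show col (fr L a (L + x)) (fr L a (L + y)) = col (fr L (a + 1) x) (fr L (a + 1) y)
    rw [fr_1, fr_1, fr_0 (by omega), fr_0 h2]
  · intro a i j i' j' h1 h2 h3 h4
    show col (fr L a i) (fr L a (L + j)) ≠ col (fr L (a + 1) i') (fr L (a + 1) (L + j'))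
    rw [fr_0 h1, fr_1, fr_0 (by omega), fr_1]
    exact hcol _ (gp_mem _ h1) _ (gp_mem _ (by omega)) _ (gp_mem _ h2) _ (gp_mem _ h3)
      (det_C a (sg_sm h1) (sg_sm (by omega)) (sg_sm h2) (sg_lt h4 h2))
      (det_D a (sg_sm h1) (sg_sm (by omega)) (sg_sm h3))
      (det_D a (sg_sm h1) (sg_sm h2) (sg_sm h3))
      (det_B (a + 1) (sg_sm (by omega)) (sg_sm h2) (sg_sm h3) (sg_lt h4 h2))
  · intro a x y k c h1 h2 h3 h4 h5
    show col (fr L a x) (fr L a y) ≠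
      col (gp a (sg L k)) (cp (sg M (if a = 2 then M - 1 - c else c)))
    have hc : (if a = 2 then M - 1 - c else c) < M := by split_ifs <;> omega
    have hs := smc_cp (sg_sm hc)
    have e : gp a (sg L k) = fr L a k := (fr_0 h4).symm
    rw [e]
    refine hcol _ (fr_mem a (by omega)) _ (fr_mem a (by omega)) _ (fr_mem a h3) _ (cp_mem hc)
      (fr_pos a h1 h2 h3) ?_ ?_ ?_
    · rw [det_rot, det_rot]; exact fr_c a hs h1 (by omega)
    · rw [det_rot, det_rot]; exact fr_c a hs (by omega) h3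
    · rw [det_rot, det_rot]; exact fr_c a hs h2 h3
  · intro a x y k c h1 h2 h3 h5
    show col (fr L a x) (fr L a y) ≠
      col (gp (a + 1) (sg L k)) (cp (sg M (if a + 1 = 2 then M - 1 - c else c)))
    have hc : (if a + 1 = 2 then M - 1 - c else c) < M := by split_ifs <;> omega
    have hs := smc_cp (sg_sm hc)
    have e : gp (a + 1) (sg L k) = fr L a (L + k) := fr_1.symm
    rw [e]
    refine hcol _ (fr_mem a (by omega)) _ (fr_mem a (by omega)) _ (fr_mem a h3) _ (cp_mem hc)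
      (fr_pos a h1 h2 h3) ?_ ?_ ?_
    · rw [det_rot, det_rot]; exact fr_c a hs h1 (by omega)
    · rw [det_rot, det_rot]; exact fr_c a hs (by omega) h3
    · rw [det_rot, det_rot]; exact fr_c a hs h2 h3
  · intro a k k' c c' h1 h2 h3 h4
    show col (gp a (sg L k)) (cp (sg M (if a = 2 then M - 1 - c else c))) ≠
      col (gp a (sg L k')) (cp (sg M (if a = 2 then M - 1 - c' else c')))
    rw [hsymm (gp a (sg L k)), hsymm (gp a (sg L k'))]
    have hk : k < L := by omega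
    have hE : ∀ d, d < M → 0 < det (cp (sg M d)) (gp a (sg L k)) (gp a (sg L k')) := fun d hd =>
      det_E a (sg_sm hk) (sg_sm h2) (smc_cp (sg_sm hd)) (sg_lt h1 h2)
    have hc : c' < M := by omega
    fin_cases a
    · exact hcol _ (cp_mem h4) _ (cp_mem hc) _ (gp_mem _ hk) _ (gp_mem _ h2)
        (det_G0 (sg_sm hc) (sg_sm h4) (sg_sm hk) (sg_lt h3 h4))
        (det_G0 (sg_sm hc) (sg_sm h4) (sg_sm h2) (sg_lt h3 h4)) (hE _ h4) (hE _ hc)
    · exact hcol _ (cp_mem h4) _ (cp_mem hc) _ (gp_mem _ hk) _ (gp_mem _ h2)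
        (det_G1 (sg_sm hc) (sg_sm h4) (sg_sm hk) (sg_lt h3 h4))
        (det_G1 (sg_sm hc) (sg_sm h4) (sg_sm h2) (sg_lt h3 h4)) (hE _ h4) (hE _ hc)
    · have m1 : M - 1 - c < M := by omega
      have m2 : M - 1 - c' < M := by omega
      exact hcol _ (cp_mem m1) _ (cp_mem m2) _ (gp_mem _ hk) _ (gp_mem _ h2)
        (det_G2 (sg_sm m1) (sg_sm m2) (sg_sm hk) (sg_lt (by omega) m2))
        (det_G2 (sg_sm m1) (sg_sm m2) (sg_sm h2) (sg_lt (by omega) m2)) (hE _ m1) (hE _ m2)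

end Pool.Agent.Helper95.CFL
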